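import Mathlib
import Pool.Agent.W757.RC.Defs

/-! Statements of the project RC, part 1 (adapted from `Pool.Agent.H790R3.RB.St`). -/

set_option autoImplicit false

open Topology Filter Metric Set MeasureTheory
open Pool.Agent.H790R3.RB

namespace Pool.Agent.W757.RC

/-- Multipliers. -/
def StLAM : Prop :=
  ∀ (d n s : ℕ) (S : Sys d n s),
    (∀ k, DifferentiableOn ℂ (S.lam k) S.U) ∧ DifferentiableOn ℂ S.bet S.U ∧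
    (∀ k, ∀ x ∈ S.U, ‖S.lam k x‖ ≤ S.θ) ∧
    (∀ x ∈ S.U, S.lam none x ≠ 0 → wr (S.co x) (1, 0) ≠ 0) ∧
    (∀ k, DifferentiableOn ℂ (fun q : (Fin n → ℂ) × ℂ => S.hk k q.1 q.2) (S.U ×ˢ ball 0 (S.r₀ k))) ∧
    (∀ k, ∀ x ∈ S.U, ∀ z : ℂ, ‖z‖ < S.r₀ k → ‖S.hk k x z‖ ≤ S.θ * ‖z‖ ∧
      ∃ a : ℂ, a ≠ 0 ∧ (S.F x)^[S.per k] (S.cht k x z) = a • S.cht k x (S.hk k x z))

/-- Existence of the Koenigs maps. -/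
def StKOE : Prop :=
  ∀ (d n s : ℕ) (S : Sys d n s), ∃ KK : Option (Fin s) → (Fin n → ℂ) × (ℂ × ℂ) → ℂ, S.Koe KK

/-- Existence of the local inverses. -/
def StLIN : Prop :=
  ∀ (d n s : ℕ) (S : Sys d n s) (KK : Option (Fin s) → (Fin n → ℂ) × (ℂ × ℂ) → ℂ), S.Koe KK →
    ∀ K : Set (Fin n → ℂ), IsCompact K → K ⊆ {x | x ∈ S.U ∧ ∀ k, S.lam k x ≠ 0} →
    ∃ (N : Set (Fin n → ℂ)) (r : ℝ) (ω : Option (Fin s) → (Fin n → ℂ) × ℂ → ℂ), K ⊆ N ∧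
      S.Lin KK N r ω

/-- Orbits of the linearised points. -/
def StORB : Prop :=
  ∀ (d n s : ℕ) (S : Sys d n s) (KK : Option (Fin s) → (Fin n → ℂ) × (ℂ × ℂ) → ℂ) (r : ℝ)
    (N : Set (Fin n → ℂ)) (ω : Option (Fin s) → (Fin n → ℂ) × ℂ → ℂ), S.Koe KK → S.Lin KK N r ω →
    ∀ x ∈ N, ∀ k k', ∀ w w' : ℂ, ‖w‖ < r → ‖w'‖ < r → ∀ a b : ℕ,
      S.pt ω k a x w ≠ 0 ∧
      cr (S.pt ω k (S.per k + a) x w) (S.pt ω k a x (S.lam k x * w)) = 0 ∧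
      (cr (S.pt ω k a x w) (S.pt ω k' b x w') = 0 → k = k' ∧ a % S.per k = b % S.per k ∧
        S.lam k x ^ (a / S.per k) * w = S.lam k x ^ (b / S.per k) * w') ∧
      (a < S.per k → (k ≠ none ∨ a ≠ 0 ∨ w ≠ 0) → (S.pt ω k a x w).2 ≠ 0)

/-- After a long time the discs are inside the linearised discs. -/
def StCOV : Prop :=
  ∀ (d n s : ℕ) (S : Sys d n s) (KK : Option (Fin s) → (Fin n → ℂ) × (ℂ × ℂ) → ℂ) (r : ℝ)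
    (N : Set (Fin n → ℂ)) (ω : Option (Fin s) → (Fin n → ℂ) × ℂ → ℂ), S.Koe KK → S.Lin KK N r ω →
    ∀ r₁ : ℝ, 0 < r₁ → ∃ N₀ : ℕ, ∀ x ∈ N, ∀ k, ∀ z : ℂ, ‖z‖ < S.r₀ k → ∀ j : ℕ, N₀ ≤ j →
      ∃ w : ℂ, ‖w‖ ≤ r₁ ∧ ‖w‖ < r ∧
        cr ((S.F x)^[S.per k * j] (S.cht k x z)) (S.cht k x (ω k (x, w))) = 0

/-- Semicontinuity of the area of the set of points which are not attracted to the marked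
cycles. -/
def StUSC : Prop :=
  ∀ (d n s : ℕ) (S : Sys d n s) (x₁ : Fin n → ℂ), x₁ ∈ S.U → ∀ η : ℝ, 0 < η →
    ∃ (σ : ℝ) (N₀ : ℕ), 0 < σ ∧ ∀ x ∈ S.U, ‖x - x₁‖ < σ →
      volume {ζ : ℂ | ∀ k, ∀ m ≤ N₀, ¬ S.InC k x ((S.F x)^[m] (ζ, 1))} ≤
        volume (S.KS x₁) + ENNReal.ofReal η

/-- The disc inequality. -/
def StDI : Prop :=
  ∀ (R₀ : ℝ) (Z : Finset ℂ) (δ M : ℝ), 0 < R₀ → 0 < δ → 0 ≤ M →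
    (∀ ζ ∈ Z, 1 / R₀ < ‖ζ‖) → ∃ c₀ : ℝ, 0 < c₀ ∧
    ∀ (d n s : ℕ) (S : Sys d n s), S.r₀ none = R₀ →
    ∀ (KK : Option (Fin s) → (Fin n → ℂ) × (ℂ × ℂ) → ℂ) (r : ℝ) (N : Set (Fin n → ℂ))
      (ω : Option (Fin s) → (Fin n → ℂ) × ℂ → ℂ) (Nt : ℕ) (r₁ r₂ τ : ℝ) (x : ℂ → (Fin n → ℂ))
      (κ : Option (Fin s) → ℂ → ℂ) (Sx : Option (Fin s) → ℕ → Set ℂ), S.Koe KK →
      S.Lin KK N r ω → 0 < r₁ → r₁ < r₂ → (∀ k, S.per k ∣ Nt) → S.Disc N r r₂ τ x κ →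
      (∀ k l, (Sx k l).Finite) →
      (∀ t ∈ ball (0 : ℂ) τ, ∀ c : ℂ × ℂ, c ≠ 0 → wr (S.co (x t)) c = 0 → ∀ m ≤ Nt, ∀ k,
        ∀ l < S.per k, ∀ w : ℂ, w ≠ 0 → ‖w‖ < r₂ →
        cr ((S.F (x t))^[m] c) (S.pt ω k l (x t) (κ k t * w)) = 0 → w ∈ Sx k l) →
      (∀ t ∈ ball (0 : ℂ) τ, ∀ ζ : ℂ, 1 / S.r₀ none < ‖ζ‖ → ζ ∈ S.WN ω Nt r₁ (x t) (fun k => κ k t)) →
      (∀ t ∈ ball (0 : ℂ) τ, ∀ ζ ∈ Z, ∀ w ∈ ball ζ δ,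
        ((S.F (x t))^[S.per none] (w, 1)).2 ≠ 0 ∧ ‖rt (S.co (x t)) (S.per none) w‖ ≤ M) →
      ∀ ρ : ℝ, 0 < ρ → ρ < τ → ∀ q : ℝ → ℝ, Continuous q → (∀ θ, 0 ≤ q θ ∧
        q θ ≤ S.AN ω Nt r₁ (x (circleMap 0 ρ θ)) (fun k => κ k (circleMap 0 ρ θ))) →
      ∫ θ in (0 : ℝ)..(2 * Real.pi), (q θ + c₀ * ∑ ζ ∈ Z,
        ‖rt (S.co (x (circleMap 0 ρ θ))) (S.per none) ζ - rt (S.co (x 0)) (S.per none) ζ‖ ^ 2) ≤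
        2 * Real.pi * S.AN ω Nt r₁ (x 0) (fun k => κ k 0)

/-- The structural equations say that the `yc y i` are the critical points. -/
def StER : Prop :=
  ∀ (d n s : ℕ) (S : Sys d n s) (y : Ix d n s → ℂ), (∀ j, S.Er j y = 0) →
    ∀ ζ : ℂ, wr (S.co (yx y)) (ζ, 1) =
      wr (S.co (yx y)) (1, 0) * ∏ i : Fin (2 * d - 2), (ζ - yc y i)

/-- Nonvanishing of a structural minor at simple critical points. -/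
def StEMIN : Prop :=
  ∀ (d n s : ℕ) (S : Sys d n s) (y : Ix d n s → ℂ), yx y ∈ S.U → wr (S.co (yx y)) (1, 0) ≠ 0 →
    Function.Injective (yc y) →
    ∃ col : Fin (2 * d - 2) → Ix d n s,
      (Matrix.of fun j c : Fin (2 * d - 2) => fderiv ℂ (S.Er j) y (Pi.single (col c) 1)).det ≠ 0

/-- The equations are holomorphic near admissible configurations. -/
def StADO : Prop :=
  ∀ (d n s l : ℕ) (S : Sys d n s) (KK : Option (Fin s) → (Fin n → ℂ) × (ℂ × ℂ) → ℂ)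
    (e : Fin l → (Fin n → ℂ) → ℂ) (A : Finset (Fin (2 * d - 2)))
    (ks : Fin (2 * d - 2) → Option (Fin s)) (ls : Fin (2 * d - 2) → ℕ), S.Koe KK →
    (∀ i, DifferentiableOn ℂ (e i) S.U) →
    ∃ O : Set (Ix d n s → ℂ), IsOpen O ∧
      O = {y | yx y ∈ S.U ∧ (∀ k, S.lam k (yx y) ≠ 0) ∧
        ∀ i ∈ A, (yx y, (S.F (yx y))^[ls i] (yc y i, 1)) ∈ S.Dom (ks i)} ∧
      (∀ j, DifferentiableOn ℂ (S.Er j) O) ∧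
      (∀ i ∈ A, DifferentiableOn ℂ
        (fun y => KK (ks i) (yx y, (S.F (yx y))^[ls i] (yc y i, 1))) O) ∧
      ∀ a, DifferentiableOn ℂ (S.Gr KK e A ks ls a) (O ∩ {y | ∀ k, yk y k ≠ 0})

/-- Points of the leaf with nonzero scales are admissible, with constant equations. -/
def StLF : Prop :=
  ∀ (d n s l : ℕ) (S : Sys d n s) (KK : Option (Fin s) → (Fin n → ℂ) × (ℂ × ℂ) → ℂ) (r : ℝ)
    (N : Set (Fin n → ℂ)) (ω : Option (Fin s) → (Fin n → ℂ) × ℂ → ℂ)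
    (e : Fin l → (Fin n → ℂ) → ℂ) (A : Finset (Fin (2 * d - 2)))
    (ks : Fin (2 * d - 2) → Option (Fin s)) (ls : Fin (2 * d - 2) → ℕ) (L : ℕ) (C : Set (Fin n → ℂ)) (K : ℝ)
    (y₀ y : Ix d n s → ℂ) (Fh : Fin (2 * d - 2) → ℂ), S.Koe KK → S.Lin KK N r ω →
    (∀ k, S.lam k (yx y₀) ≠ 0) → (∀ i ∈ A, ls i < S.per (ks i)) →
    (∀ i ∈ A, K * ‖S.lam (ks i) (yx y₀) ^ L * Fh i‖ < r) → yx y ∈ N →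
    y ∈ S.Leaf ω e A ks ls L C K y₀ Fh →
    (∀ i ∈ A, (yx y, (S.F (yx y))^[ls i] (yc y i, 1)) ∈ S.Dom (ks i)) ∧
    (∀ i ∈ A, KK (ks i) (yx y, (S.F (yx y))^[ls i] (yc y i, 1)) = yk y (ks i) * Fh i) ∧
    ((∀ k, yk y k ≠ 0) → S.Adm A ks ls y ∧ ∀ i ∈ A,
      KK (ks i) (yx y, (S.F (yx y))^[ls i] (yc y i, 1)) / yk y (ks i) = Fh i)

/-- The starting point belongs to the leaf. -/
def StIN : Prop :=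
  ∀ (d n s l : ℕ) (S : Sys d n s) (KK : Option (Fin s) → (Fin n → ℂ) × (ℂ × ℂ) → ℂ) (r : ℝ)
    (N : Set (Fin n → ℂ)) (ω : Option (Fin s) → (Fin n → ℂ) × ℂ → ℂ)
    (e : Fin l → (Fin n → ℂ) → ℂ) (A : Finset (Fin (2 * d - 2)))
    (ks : Fin (2 * d - 2) → Option (Fin s)) (ls : Fin (2 * d - 2) → ℕ) (C : Set (Fin n → ℂ)) (K : ℝ)
    (y₀ : Ix d n s → ℂ), S.Koe KK → S.Lin KK N r ω → yx y₀ ∈ N → yx y₀ ∈ C →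
    S.Adm A ks ls y₀ → (∀ k, ‖yk y₀ k‖ ≤ K) →
    ∃ L₀ : ℕ, ∀ L ≥ L₀, y₀ ∈ S.Leaf ω e A ks ls L C K y₀
      (fun i => KK (ks i) (yx y₀, (S.F (yx y₀))^[ls i] (yc y₀ i, 1)) / yk y₀ (ks i))

/-- The leaf is compact. -/
def StCPT : Prop :=
  ∀ (d n s l : ℕ) (S : Sys d n s) (KK : Option (Fin s) → (Fin n → ℂ) × (ℂ × ℂ) → ℂ) (r : ℝ)
    (N : Set (Fin n → ℂ)) (ω : Option (Fin s) → (Fin n → ℂ) × ℂ → ℂ)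
    (e : Fin l → (Fin n → ℂ) → ℂ) (A : Finset (Fin (2 * d - 2)))
    (ks : Fin (2 * d - 2) → Option (Fin s)) (ls : Fin (2 * d - 2) → ℕ) (L : ℕ) (C : Set (Fin n → ℂ)) (K : ℝ)
    (y₀ : Ix d n s → ℂ) (Fh : Fin (2 * d - 2) → ℂ), S.Koe KK → S.Lin KK N r ω →
    (∀ i, DifferentiableOn ℂ (e i) S.U) → IsCompact C → C ⊆ S.U → S.lam none (yx y₀) ≠ 0 →
    {x | x ∈ C ∧ ∀ k, S.lam k x = S.lam k (yx y₀)} ⊆ N →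
    (∀ i ∈ A, K * ‖S.lam (ks i) (yx y₀) ^ L * Fh i‖ < r) →
    IsCompact (S.Leaf ω e A ks ls L C K y₀ Fh)

/-- The leaf is invariant under small discs. -/
def StOPN : Prop :=
  ∀ (d n s l : ℕ) (S : Sys d n s) (KK : Option (Fin s) → (Fin n → ℂ) × (ℂ × ℂ) → ℂ) (r : ℝ)
    (N : Set (Fin n → ℂ)) (ω : Option (Fin s) → (Fin n → ℂ) × ℂ → ℂ)
    (e : Fin l → (Fin n → ℂ) → ℂ) (A : Finset (Fin (2 * d - 2)))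
    (ks : Fin (2 * d - 2) → Option (Fin s)) (ls : Fin (2 * d - 2) → ℕ) (L : ℕ) (C : Set (Fin n → ℂ)) (K τ : ℝ)
    (y₀ : Ix d n s → ℂ) (Fh : Fin (2 * d - 2) → ℂ) (γ : ℂ → Ix d n s → ℂ), S.Koe KK →
    S.Lin KK N r ω → (∀ k, S.lam k (yx y₀) ≠ 0) → (∀ i ∈ A, ls i < S.per (ks i)) →
    (∀ i ∈ A, K * ‖S.lam (ks i) (yx y₀) ^ L * Fh i‖ < r) → 0 < τ →
    DifferentiableOn ℂ γ (ball 0 τ) → yx (γ 0) ∈ N → γ 0 ∈ S.Leaf ω e A ks ls L C K y₀ Fh →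
    (∀ k, yk (γ 0) k ≠ 0) → (∀ᶠ t in 𝓝 (0 : ℂ), yx (γ t) ∈ C) → (∀ k, ‖yk (γ 0) (some k)‖ < K) → 1 ≤ K →
    (∀ t ∈ ball (0 : ℂ) τ, (∀ j, S.Er j (γ t) = 0) ∧
      ∀ a, S.Gr KK e A ks ls a (γ t) = S.Gr KK e A ks ls a (γ 0)) →
    ∃ τ' : ℝ, 0 < τ' ∧ τ' ≤ τ ∧ ∀ t ∈ ball (0 : ℂ) τ', yx (γ t) ∈ N ∧ (∀ k, yk (γ t) k ≠ 0) ∧
      γ t ∈ S.Leaf ω e A ks ls L C K y₀ Fh

/-- Positions of the critical values in the linearised discs. -/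
def StEXC : Prop :=
  ∀ (d n s l : ℕ) (S : Sys d n s) (KK : Option (Fin s) → (Fin n → ℂ) × (ℂ × ℂ) → ℂ) (r : ℝ)
    (N : Set (Fin n → ℂ)) (ω : Option (Fin s) → (Fin n → ℂ) × ℂ → ℂ)
    (e : Fin l → (Fin n → ℂ) → ℂ) (A : Finset (Fin (2 * d - 2)))
    (ks : Fin (2 * d - 2) → Option (Fin s)) (ls : Fin (2 * d - 2) → ℕ) (L : ℕ) (C : Set (Fin n → ℂ)) (K : ℝ)
    (y₀ y : Ix d n s → ℂ) (Fh : Fin (2 * d - 2) → ℂ), S.Koe KK → S.Lin KK N r ω →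
    (∀ i ∈ A, K * ‖S.lam (ks i) (yx y₀) ^ L * Fh i‖ < r) → yx y ∈ N →
    y ∈ S.Leaf ω e A ks ls L C K y₀ Fh → (∀ k, yk y k ≠ 0) →
    (∀ i ∉ A, ∀ k, ∀ m : ℕ, ¬ S.InC k (yx y) ((S.F (yx y))^[m] (yc y i, 1))) →
    ∀ c : ℂ × ℂ, c ≠ 0 → wr (S.co (yx y)) c = 0 → ∀ m : ℕ, ∀ k, ∀ a : ℕ, ∀ w : ℂ,
      ‖yk y k * w‖ < r → cr ((S.F (yx y))^[m] c) (S.pt ω k a (yx y) (yk y k * w)) = 0 →
      ∃ i ∈ A, ks i = k ∧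
        S.lam k (yx y) ^ (m / S.per k) * Fh i = S.lam k (yx y) ^ ((a + ls i) / S.per k) * w

/-- Consequence of Fatou's argument for the scales. -/
def StFKB : Prop :=
  ∀ (d n s l : ℕ) (S : Sys d n s) (KK : Option (Fin s) → (Fin n → ℂ) × (ℂ × ℂ) → ℂ) (r : ℝ)
    (N : Set (Fin n → ℂ)) (ω : Option (Fin s) → (Fin n → ℂ) × ℂ → ℂ)
    (e : Fin l → (Fin n → ℂ) → ℂ) (A : Finset (Fin (2 * d - 2)))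
    (ks : Fin (2 * d - 2) → Option (Fin s)) (ls : Fin (2 * d - 2) → ℕ) (L : ℕ) (C : Set (Fin n → ℂ)) (K rF : ℝ)
    (y₀ y : Ix d n s → ℂ) (Fh : Fin (2 * d - 2) → ℂ), S.Koe KK → S.Lin KK N r ω →
    (∀ i ∈ A, ls i < S.per (ks i)) →
    (∀ i ∈ A, K * ‖S.lam (ks i) (yx y₀) ^ L * Fh i‖ < r) → yx y ∈ N →
    y ∈ S.Leaf ω e A ks ls L C K y₀ Fh → (∀ k, yk y k ≠ 0) →
    (∀ i ∉ A, ∀ k, ∀ m : ℕ, ¬ S.InC k (yx y) ((S.F (yx y))^[m] (yc y i, 1))) →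
    0 < rF → ∀ k : Fin s, (∀ i ∈ A, ks i = some k → Fh i ≠ 0 → rF ≤ ‖Fh i‖) →
    ‖yk y (some k)‖ * rF ≤ 2 / S.r₀ none ∧ ∃ i ∈ A, ks i = some k ∧ Fh i ≠ 0

/-- Lower semicontinuity of the area functional. -/
def StLSC : Prop :=
  ∀ (d n s : ℕ) (S : Sys d n s) (KK : Option (Fin s) → (Fin n → ℂ) × (ℂ × ℂ) → ℂ) (r : ℝ)
    (N : Set (Fin n → ℂ)) (ω : Option (Fin s) → (Fin n → ℂ) × ℂ → ℂ) (Nt : ℕ) (r₁ R : ℝ),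
    S.Koe KK → S.Lin KK N r ω → 0 < r₁ →
    LowerSemicontinuousOn (fun q : (Fin n → ℂ) × (Option (Fin s) → ℂ) => S.AN ω Nt r₁ q.1 q.2)
      {q | q.1 ∈ N ∧ (∀ k, ‖q.2 k‖ * r₁ < r) ∧ ∀ ζ : ℂ, R < ‖ζ‖ → ζ ∈ S.WN ω Nt r₁ q.1 q.2}



/-- `ζ` has address `(k, l, w)` at time `t`. -/
def Ad {d n s : ℕ} (S : Sys d n s) (ω : Option (Fin s) → (Fin n → ℂ) × ℂ → ℂ) (Nt : ℕ)
    (x : ℂ → (Fin n → ℂ)) (κ : Option (Fin s) → ℂ → ℂ) (t : ℂ) (k : Option (Fin s)) (l : ℕ) (w ζ : ℂ) :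
    Prop :=
  cr ((S.F (x t))^[Nt] (ζ, 1)) (S.pt ω k l (x t) (κ k t * w)) = 0

/-- The data of the disc inequality. -/
structure DD {d n s : ℕ} (S : Sys d n s) (KK : Option (Fin s) → (Fin n → ℂ) × (ℂ × ℂ) → ℂ)
    (r : ℝ) (N : Set (Fin n → ℂ)) (ω : Option (Fin s) → (Fin n → ℂ) × ℂ → ℂ) (Nt : ℕ)
    (r₂ τ : ℝ) (x : ℂ → (Fin n → ℂ)) (κ : Option (Fin s) → ℂ → ℂ)
    (Sx : Option (Fin s) → ℕ → Set ℂ) : Prop where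
  koe : S.Koe KK
  lin : S.Lin KK N r ω
  hr₂ : 0 < r₂
  div : ∀ k, S.per k ∣ Nt
  dsc : S.Disc N r r₂ τ x κ
  fin : ∀ k l, (Sx k l).Finite
  exc : ∀ t ∈ ball (0 : ℂ) τ, ∀ c : ℂ × ℂ, c ≠ 0 → wr (S.co (x t)) c = 0 → ∀ m ≤ Nt, ∀ k,
    ∀ l < S.per k, ∀ w : ℂ, w ≠ 0 → ‖w‖ < r₂ →
    cr ((S.F (x t))^[m] c) (S.pt ω k l (x t) (κ k t * w)) = 0 → w ∈ Sx k l

/-- The motion of the points with nonexceptional addresses. -/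
structure Mo {d n s : ℕ} (S : Sys d n s) (ω : Option (Fin s) → (Fin n → ℂ) × ℂ → ℂ) (Nt : ℕ)
    (r₂ τ : ℝ) (x : ℂ → (Fin n → ℂ)) (κ : Option (Fin s) → ℂ → ℂ)
    (Sx : Option (Fin s) → ℕ → Set ℂ) (W : Set ℂ) (Φ : ℂ → ℂ → ℂ) : Prop where
  Wo : IsOpen W
  mem : ∀ ζ : ℂ, ζ ∈ W ↔ ∃ k, ∃ l < S.per k, ∃ w : ℂ, w ≠ 0 ∧ ‖w‖ < r₂ ∧ w ∉ Sx k l ∧
    Ad S ω Nt x κ 0 k l w ζ
  Φd : DifferentiableOn ℂ (fun p : ℂ × ℂ => Φ p.1 p.2) (ball 0 τ ×ˢ W)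
  Φ0 : ∀ z ∈ W, Φ 0 z = z
  Φi : ∀ t ∈ ball (0 : ℂ) τ, InjOn (Φ t) W
  ad : ∀ k, ∀ l < S.per k, ∀ w : ℂ, w ≠ 0 → ‖w‖ < r₂ → w ∉ Sx k l → ∀ ζ : ℂ,
    Ad S ω Nt x κ 0 k l w ζ → ∀ t ∈ ball (0 : ℂ) τ, Ad S ω Nt x κ t k l w (Φ t ζ)
  unq : ∀ k, ∀ l < S.per k, ∀ w : ℂ, w ≠ 0 → ‖w‖ < r₂ → w ∉ Sx k l → ∀ ζ : ℂ,
    Ad S ω Nt x κ 0 k l w ζ → ∀ Z' : ℂ → ℂ, ContinuousOn Z' (ball 0 τ) →
    (∃ t₁ ∈ ball (0 : ℂ) τ, Z' t₁ = Φ t₁ ζ) →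
    (∀ t ∈ ball (0 : ℂ) τ, Ad S ω Nt x κ t k l w (Z' t)) → ∀ t ∈ ball (0 : ℂ) τ, Z' t = Φ t ζ

/-- Existence of the motion. -/
def StMS : Prop :=
  ∀ (d n s : ℕ) (S : Sys d n s) (KK : Option (Fin s) → (Fin n → ℂ) × (ℂ × ℂ) → ℂ)
    (r : ℝ) (N : Set (Fin n → ℂ)) (ω : Option (Fin s) → (Fin n → ℂ) × ℂ → ℂ) (Nt : ℕ)
    (r₂ τ : ℝ) (x : ℂ → (Fin n → ℂ)) (κ : Option (Fin s) → ℂ → ℂ)
    (Sx : Option (Fin s) → ℕ → Set ℂ), DD S KK r N ω Nt r₂ τ x κ Sx →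
    ∃ (W : Set ℂ) (Φ : ℂ → ℂ → ℂ), Mo S ω Nt r₂ τ x κ Sx W Φ

/-- Addresses are unique; only finitely many points have exceptional addresses; the sets `WN` are
closed. -/
def StAU : Prop :=
  ∀ (d n s : ℕ) (S : Sys d n s) (KK : Option (Fin s) → (Fin n → ℂ) × (ℂ × ℂ) → ℂ)
    (r : ℝ) (N : Set (Fin n → ℂ)) (ω : Option (Fin s) → (Fin n → ℂ) × ℂ → ℂ) (Nt : ℕ)
    (r₂ τ : ℝ) (x : ℂ → (Fin n → ℂ)) (κ : Option (Fin s) → ℂ → ℂ)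
    (Sx : Option (Fin s) → ℕ → Set ℂ), DD S KK r N ω Nt r₂ τ x κ Sx →
    ∀ t ∈ ball (0 : ℂ) τ,
      (∀ k k', ∀ l < S.per k, ∀ l' < S.per k', ∀ w w' ζ : ℂ, ‖w‖ < r₂ → ‖w'‖ < r₂ →
        Ad S ω Nt x κ t k l w ζ → Ad S ω Nt x κ t k' l' w' ζ → k = k' ∧ l = l' ∧ w = w') ∧
      {ζ : ℂ | ∃ k, ∃ l < S.per k, ∃ w : ℂ, ‖w‖ < r₂ ∧ (w = 0 ∨ w ∈ Sx k l) ∧
        Ad S ω Nt x κ t k l w ζ}.Finite ∧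
      ∀ r₁ : ℝ, 0 < r₁ → r₁ < r₂ → IsClosed (S.WN ω Nt r₁ (x t) (fun k => κ k t))

/-- The motion is tangent to the identity at infinity. -/
def StTNI : Prop :=
  ∀ (d n s : ℕ) (S : Sys d n s) (KK : Option (Fin s) → (Fin n → ℂ) × (ℂ × ℂ) → ℂ)
    (r : ℝ) (N : Set (Fin n → ℂ)) (ω : Option (Fin s) → (Fin n → ℂ) × ℂ → ℂ) (Nt : ℕ)
    (r₂ τ : ℝ) (x : ℂ → (Fin n → ℂ)) (κ : Option (Fin s) → ℂ → ℂ)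
    (Sx : Option (Fin s) → ℕ → Set ℂ) (W : Set ℂ) (Φ : ℂ → ℂ → ℂ),
    DD S KK r N ω Nt r₂ τ x κ Sx → Mo S ω Nt r₂ τ x κ Sx W Φ →
    ∀ t ∈ ball (0 : ℂ) τ, (∃ R : ℝ, ∀ z : ℂ, R < ‖z‖ → z ∈ W) ∧
      Tendsto (fun z => Φ t z - z) (cocompact ℂ) (𝓝 0)

/-- The motion is a conjugacy. -/
def StCNJ : Prop :=
  ∀ (d n s : ℕ) (S : Sys d n s) (KK : Option (Fin s) → (Fin n → ℂ) × (ℂ × ℂ) → ℂ)
    (r : ℝ) (N : Set (Fin n → ℂ)) (ω : Option (Fin s) → (Fin n → ℂ) × ℂ → ℂ) (Nt : ℕ)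
    (r₂ τ : ℝ) (x : ℂ → (Fin n → ℂ)) (κ : Option (Fin s) → ℂ → ℂ)
    (Sx : Option (Fin s) → ℕ → Set ℂ) (W : Set ℂ) (Φ : ℂ → ℂ → ℂ),
    DD S KK r N ω Nt r₂ τ x κ Sx → Mo S ω Nt r₂ τ x κ Sx W Φ →
    (∃ E : Set ℂ, E.Finite ∧ ∀ ζ : ℂ, 1 / S.r₀ none < ‖ζ‖ → ζ ∉ E → ζ ∈ W) →
    ∀ t ∈ ball (0 : ℂ) τ, ∀ Ψ : ℂ → ℂ, ContinuousOn Ψ {z : ℂ | 1 / S.r₀ none < ‖z‖} →
      (∃ E : Set ℂ, E.Finite ∧ ∀ ζ : ℂ, 1 / S.r₀ none < ‖ζ‖ → ζ ∉ E → Ψ ζ = Φ t ζ) →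
      ∀ ζ : ℂ, 1 / S.r₀ none < ‖ζ‖ → ((S.F (x 0))^[S.per none] (ζ, 1)).2 ≠ 0 →
        ‖ζ‖ ≤ ‖rt (S.co (x 0)) (S.per none) ζ‖ ∧
        ((S.F (x t))^[S.per none] (Ψ ζ, 1)).2 ≠ 0 ∧
        rt (S.co (x t)) (S.per none) (Ψ ζ) = Ψ (rt (S.co (x 0)) (S.per none) ζ)

/-- nonvanishing minors at an admissible configuration -/
def Goodc {d n s l : ℕ} (S : Sys d n s) (KK : Option (Fin s) → (Fin n → ℂ) × (ℂ × ℂ) → ℂ)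
    (e : Fin l → (Fin n → ℂ) → ℂ) (A : Finset (Fin (2 * d - 2)))
    (ks : Fin (2 * d - 2) → Option (Fin s)) (ls : Fin (2 * d - 2) → ℕ) (R : ℕ)
    (y : Ix d n s → ℂ) : Prop :=
  S.Adm A ks ls y ∧ ∃ (sel : Fin R → Sys.Rw l d s A) (col : Fin (2 * d - 2) ⊕ Fin R → Ix d n s),
    (S.Mx KK e A ks ls sel col y).det ≠ 0

/-- At a good configuration with maximal number of attracted critical points the other critical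
points are not attracted. -/
def StNU : Prop :=
  ∀ (d n s l : ℕ) (S : Sys d n s) (KK : Option (Fin s) → (Fin n → ℂ) × (ℂ × ℂ) → ℂ)
    (e : Fin l → (Fin n → ℂ) → ℂ) (A : Finset (Fin (2 * d - 2)))
    (ks : Fin (2 * d - 2) → Option (Fin s)) (ls : Fin (2 * d - 2) → ℕ) (R : ℕ)
    (y : Ix d n s → ℂ), Goodc S KK e A ks ls R y →
    (∀ (A' : Finset (Fin (2 * d - 2))) (ks' : Fin (2 * d - 2) → Option (Fin s))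
      (ls' : Fin (2 * d - 2) → ℕ), A.card < A'.card → ¬ Goodc S KK e A' ks' ls' 0 y) →
    ∀ i ∉ A, ∀ k, ∀ m : ℕ, ¬ S.InC k (yx y) ((S.F (yx y))^[m] (yc y i, 1))

/-- If all critical points are marked as attracted then all critical vectors are attracted. -/
def StALLC : Prop :=
  ∀ (d n s : ℕ) (S : Sys d n s) (ks : Fin (2 * d - 2) → Option (Fin s))
    (ls : Fin (2 * d - 2) → ℕ) (y : Ix d n s → ℂ), S.Adm Finset.univ ks ls y →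
    ∀ c : ℂ × ℂ, c ≠ 0 → wr (S.co (yx y)) c = 0 → ∃ k, ∃ m : ℕ, S.InC k (yx y) ((S.F (yx y))^[m] c)

/-- A holomorphic function on the leaf with the same zeros as the minor. -/
def StJT : Prop :=
  ∀ (d n s l : ℕ) (S : Sys d n s) (KK : Option (Fin s) → (Fin n → ℂ) × (ℂ × ℂ) → ℂ)
    (e : Fin l → (Fin n → ℂ) → ℂ) (A : Finset (Fin (2 * d - 2)))
    (ks : Fin (2 * d - 2) → Option (Fin s)) (ls : Fin (2 * d - 2) → ℕ) (R : ℕ)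
    (sel : Fin R → Sys.Rw l d s A) (col : Fin (2 * d - 2) ⊕ Fin R → Ix d n s), S.Koe KK →
    (∀ i, DifferentiableOn ℂ (e i) S.U) →
    ∃ Jt : (Ix d n s → ℂ) → ℂ,
      DifferentiableOn ℂ Jt {y | yx y ∈ S.U ∧ (∀ k, S.lam k (yx y) ≠ 0) ∧
        ∀ i ∈ A, (yx y, (S.F (yx y))^[ls i] (yc y i, 1)) ∈ S.Dom (ks i)} ∧
      ∀ y : Ix d n s → ℂ, yx y ∈ S.U → (∀ k, S.lam k (yx y) ≠ 0) →
        (∀ i ∈ A, (yx y, (S.F (yx y))^[ls i] (yc y i, 1)) ∈ S.Dom (ks i)) → (∀ k, yk y k ≠ 0) →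
        (Jt y = 0 ↔ (S.Mx KK e A ks ls sel col y).det = 0)

/-- Choice of the time: at time `Nt` a neighbourhood of infinity and all points which are attracted
before time `N₀` are in the linearised discs. -/
def StST : Prop :=
  ∀ (d n s : ℕ) (S : Sys d n s) (KK : Option (Fin s) → (Fin n → ℂ) × (ℂ × ℂ) → ℂ) (r : ℝ)
    (N : Set (Fin n → ℂ)) (ω : Option (Fin s) → (Fin n → ℂ) × ℂ → ℂ), S.Koe KK → S.Lin KK N r ω →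
    ∀ (r₁ : ℝ) (N₀ : ℕ) (κ₀ : Option (Fin s) → ℂ), 0 < r₁ → r₁ < r → (∀ k, κ₀ k ≠ 0) →
    (∀ k, ‖κ₀ k‖ * r₁ < r) → ∃ Nt : ℕ, (∀ k, S.per k ∣ Nt) ∧
      (∀ x ∈ N, ∀ κ : Option (Fin s) → ℂ, κ none = 1 → ∀ ζ : ℂ, 1 / S.r₀ none < ‖ζ‖ →
        ζ ∈ S.WN ω Nt r₁ x κ) ∧
      ∀ x ∈ N, ∀ ζ : ℂ, (∃ k, ∃ m ≤ N₀, S.InC k x ((S.F x)^[m] (ζ, 1))) → ζ ∈ S.WN ω Nt r₁ x κ₀

/-- Nonconstancy of the parameter along a disc. -/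
def StNC : Prop :=
  ∀ (d n s : ℕ) (S : Sys d n s) (KK : Option (Fin s) → (Fin n → ℂ) × (ℂ × ℂ) → ℂ)
    (A : Finset (Fin (2 * d - 2)))
    (ks : Fin (2 * d - 2) → Option (Fin s)) (ls : Fin (2 * d - 2) → ℕ) (τ : ℝ)
    (γ : ℂ → Ix d n s → ℂ) (Fh : Fin (2 * d - 2) → ℂ), 0 < τ → DifferentiableOn ℂ γ (ball 0 τ) →
    deriv γ 0 ≠ 0 → (∀ t ∈ ball (0 : ℂ) τ, S.Adm A ks ls (γ t) ∧ ∀ i ∈ A,
      KK (ks i) (yx (γ t), (S.F (yx (γ t)))^[ls i] (yc (γ t) i, 1)) / yk (γ t) (ks i) = Fh i) →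
    (∀ k : Fin s, ∃ i ∈ A, ks i = some k ∧ Fh i ≠ 0) → ∃ t ∈ ball (0 : ℂ) τ, yx (γ t) ≠ yx (γ 0)

/-- Choice of the test points and of the radius. -/
def StZZ : Prop :=
  ∀ (d n s l : ℕ) (S : Pool.Agent.H790R3.RB.Sys d n s) (e : Fin l → (Fin n → ℂ) → ℂ),
    (∀ i, DifferentiableOn ℂ (e i) S.U) →
    (∀ x₁ ∈ S.U, ∃ ε : ℝ, 0 < ε ∧ ∀ x ∈ S.U, ‖x - x₁‖ < ε → (∀ i, e i x = e i x₁) →
      (∀ p : ℂ × ℂ, cr ((S.F x)^[S.per none] p) ((S.F x₁)^[S.per none] p) = 0) → x = x₁) →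
    ∀ ρ' : ℝ, 0 < ρ' →
    ∃ (Z : Finset ℂ) (δ M ρ₂ h₀ : ℝ), 0 < δ ∧ 0 ≤ M ∧ 0 < ρ₂ ∧ ρ₂ < ρ' ∧ ρ₂ < S.ρ ∧ 0 < h₀ ∧
      (∀ ζ ∈ Z, 1 / S.r₀ < ‖ζ‖) ∧
      (∀ x ∈ closedBall S.xT ρ₂, ∀ ζ ∈ Z, ∀ w ∈ ball ζ δ, ((S.F x)^[S.per none] (w, 1)).2 ≠ 0 ∧
        ‖rt (S.co x) (S.per none) w‖ ≤ M) ∧
      (∀ x ∈ closedBall S.xT ρ₂, ∀ x' ∈ closedBall S.xT ρ₂,
        (∀ ζ ∈ Z, rt (S.co x) (S.per none) ζ = rt (S.co x') (S.per none) ζ) →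
        ∀ p : ℂ × ℂ, cr ((S.F x)^[S.per none] p) ((S.F x')^[S.per none] p) = 0) ∧
      ∀ x : Fin n → ℂ, ‖x - S.xT‖ = ρ₂ →
        h₀ ≤ ∑ ζ ∈ Z, ‖rt (S.co x) (S.per none) ζ - rt (S.co S.xT) (S.per none) ζ‖ ^ 2 +
          ∑ i, ‖e i x - e i S.xT‖ ^ 2

/-- If all critical points enter the marked discs then the map is hyperbolic. -/
def StTOP : Prop :=
  ∀ (d n s : ℕ) (S : Sys d n s), ∀ x ∈ S.U,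
    (∀ c : ℂ × ℂ, c ≠ 0 → wr (S.co x) c = 0 → ∃ k, ∃ m : ℕ, S.InC k x ((S.F x)^[m] c)) →
    HypTop (sp (S.co x))

/-- Every marked cycle other than the one at infinity attracts a critical point. -/
def StONE : Prop :=
  ∀ (d n s : ℕ) (S : Sys d n s) (x : Fin n → ℂ), x ∈ S.U → (∀ k, S.lam k x ≠ 0) →
    ∀ k : Fin s, ∃ c : ℂ × ℂ, c ≠ 0 ∧ wr (S.co x) c = 0 ∧
      ∃ m : ℕ, S.InC (some k) x ((S.F x)^[m] c)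

end Pool.Agent.W757.RC
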