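import Mathlib
import Pool.Agent.W757.RC.St

/-! Statements of the project RC, part 2: extensions of the base family by marked cycles. The base
family is a system `S₀ : Pool.Agent.H790R3.RB.Sys d n 0` in which only the cycle of infinity is
marked. -/

set_option autoImplicit false

open Topology Filter Metric Set MeasureTheory
open Pool.Agent.H790R3.RB
open scoped OnePoint

namespace Pool.Agent.W757.RC

/-- the base family: a system of the project RB in which only the cycle of infinity is marked -/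
abbrev BS (d n : ℕ) : Type := Pool.Agent.H790R3.RB.Sys d n 0

/-- the parameter of the base family -/
def xp {n s : ℕ} (x : Fin (n + s) → ℂ) : Fin n → ℂ := fun i => x (Fin.castAdd s i)

/-- the additional coordinates: positions of the marked points -/
def bp {n s : ℕ} (x : Fin (n + s) → ℂ) (k : Fin s) : ℂ := x (Fin.natAdd n k)

/-- marked points as functions on a point, for the charts `ch` -/
def mp {s : ℕ} (β : Fin s → ℂ) : Fin s → Unit → ℂ := fun k _ => β k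

/-- The points `β k` and `∞` are attracting periodic points, with periods `per`, of the map with
parameter `x`, and they belong to different cycles. -/
structure Mk {d n : ℕ} (S₀ : BS d n) (x : Fin n → ℂ) (s : ℕ) (per : Option (Fin s) → ℕ)
    (β : Fin s → ℂ) : Prop where
  xU : x ∈ S₀.U
  pn : per none = S₀.per none
  pp : ∀ k, 1 ≤ per k
  cyc : ∀ k, cr ((hF (S₀.co x))^[per k] (ch (mp β) k () 0)) (ch (mp β) k () 0) = 0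
  mul : ∀ k, ‖deriv (ret (S₀.co x) (mp β) k (per k)) 0‖ < 1
  dis : ∀ k k', ∀ m : ℕ, cr ((hF (S₀.co x))^[m] (ch (mp β) k () 0)) (ch (mp β) k' () 0) = 0 →
    k = k' ∧ per k ∣ m

/-- `S` extends the base family by marked cycles. -/
structure Ext {d n s : ℕ} (S₀ : BS d n) (S : Sys d (n + s) s) : Prop where
  U : ∀ x ∈ S.U, xp x ∈ S₀.U
  co : ∀ x ∈ S.U, S.co x = S₀.co (xp x)
  pn : S.per none = S₀.per none
  bl : ∀ x ∈ S.U, ∀ᶠ x' in 𝓝 x, xp x' = xp x → ∀ k, S.b k x' = S.b k x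

/-- the normalisations of an extension -/
noncomputable def ee {d n s l : ℕ} (S : Sys d (n + s) s) (e : Fin l → (Fin n → ℂ) → ℂ) :
    Fin (l + s) → (Fin (n + s) → ℂ) → ℂ :=
  Fin.addCases (fun i x => e i (xp x)) (fun k x => bp x k - S.b k x)

/-- Continuation of marked cycles. -/
def StLOCM : Prop :=
  ∀ (d n : ℕ) (S₀ : BS d n) (x₁ : Fin n → ℂ) (s : ℕ) (per : Option (Fin s) → ℕ) (β : Fin s → ℂ),
    Mk S₀ x₁ s per β → ∃ (ε r θ : ℝ) (b : Fin s → (Fin n → ℂ) → ℂ), 0 < ε ∧ 0 < r ∧ 0 ≤ θ ∧ θ < 1 ∧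
      ball x₁ ε ⊆ S₀.U ∧ (∀ k, b k x₁ = β k) ∧ (∀ k, DifferentiableOn ℂ (b k) (ball x₁ ε)) ∧
      (∀ x ∈ ball x₁ ε, ∀ k, ‖b k x - β k‖ < r / 8) ∧
      (∀ x ∈ ball x₁ ε, ∀ k, ∀ z : ℂ, ‖z‖ < (k.elim S₀.r₀ fun _ => r) → ∃ a z' : ℂ, a ≠ 0 ∧
        ‖z'‖ ≤ θ * ‖z‖ ∧ (hF (S₀.co x))^[per k] (ch b k x z) = a • ch b k x z') ∧
      (∀ x ∈ ball x₁ ε, ∀ k k', ∀ z z' a : ℂ, ∀ m : ℕ, ‖z‖ < (k.elim S₀.r₀ fun _ => r) →
        ‖z'‖ < (k'.elim S₀.r₀ fun _ => r) →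
        (hF (S₀.co x))^[m] (ch b k x z) = a • ch b k' x z' → k = k' ∧ per k ∣ m) ∧
      ∀ x ∈ ball x₁ ε, ∀ k : Fin s, ∀ z : ℂ, ‖z - β k‖ < r →
        cr ((hF (S₀.co x))^[per (some k)] (z, 1)) (z, 1) = 0 → z = b k x

/-- The marked configurations with given multipliers form a compact set. -/
def StDCL : Prop :=
  ∀ (d n : ℕ) (S₀ : BS d n) (ρb : ℝ) (s : ℕ) (per : Option (Fin s) → ℕ)
    (v : Option (Fin s) → ℂ), ρb < S₀.ρ → (∀ k, 1 ≤ per k) → (∀ k, ‖v k‖ < 1) →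
    IsCompact {q : Fin (n + s) → ℂ | xp q ∈ closedBall S₀.xT ρb ∧ Mk S₀ (xp q) s per (bp q) ∧
      ∀ k, deriv (ret (S₀.co (xp q)) (mp (bp q)) k (per k)) 0 = v k}

/-- Existence of extensions. -/
def StMARK : Prop :=
  ∀ (d n : ℕ) (S₀ : BS d n) (ρb : ℝ), ρb < S₀.ρ → ∀ x₀ ∈ closedBall S₀.xT ρb, ∀ (s : ℕ)
    (per : Option (Fin s) → ℕ) (β : Fin s → ℂ), Mk S₀ x₀ s per β →
    ∃ (S : Sys d (n + s) s) (q₀ : Fin (n + s) → ℂ), Ext S₀ S ∧ S.r₀ none = S₀.r₀ ∧ S.per = per ∧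
      q₀ ∈ S.U ∧ xp q₀ = x₀ ∧ (∀ k, bp q₀ k = β k) ∧ (∀ k, S.b k q₀ = β k) ∧
      IsCompact {q | q ∈ S.U ∧ xp q ∈ closedBall S₀.xT ρb ∧ (∀ k, S.b k q = bp q k) ∧
        ∀ k, S.lam k q = S.lam k q₀}

/-- The notions which are used do not depend on the extension (and on the position `bp` of the
additional coordinates, as long as the marked points are the same). -/
def StTRF : Prop :=
  ∀ (d n s l : ℕ) (S₀ : BS d n) (S₁ S₂ : Sys d (n + s) s), Ext S₀ S₁ → Ext S₀ S₂ →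
    S₁.per = S₂.per → ∀ q₁ q₂ : Fin (n + s) → ℂ, q₁ ∈ S₁.U → q₂ ∈ S₂.U → xp q₁ = xp q₂ →
    (∀ k, S₁.b k q₁ = S₂.b k q₂) → S₁.KS q₁ = S₂.KS q₂ ∧ (∀ k, S₁.lam k q₁ = S₂.lam k q₂) ∧
    ∀ (KK₁ KK₂ : Option (Fin s) → (Fin (n + s) → ℂ) × (ℂ × ℂ) → ℂ)
      (e : Fin l → (Fin n → ℂ) → ℂ) (A : Finset (Fin (2 * d - 2)))
      (ks : Fin (2 * d - 2) → Option (Fin s)) (ls : Fin (2 * d - 2) → ℕ) (R : ℕ)
      (y₁ y₂ : Ix d (n + s) s → ℂ), (∀ i, DifferentiableOn ℂ (e i) S₀.U) →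
      S₁.Koe KK₁ → S₂.Koe KK₂ → yx y₁ = q₁ → yx y₂ = q₂ → yc y₁ = yc y₂ → yk y₁ = yk y₂ →
      Goodc S₁ KK₁ (ee S₁ e) A ks ls R y₁ → Goodc S₂ KK₂ (ee S₂ e) A ks ls R y₂

/-- All attracting cycles can be marked. -/
def StSMK : Prop :=
  ∀ (d n : ℕ) (S₀ : BS d n), ∀ x ∈ S₀.U, ∃ (s : ℕ) (per : Option (Fin s) → ℕ) (β : Fin s → ℂ),
    Mk S₀ x s per β ∧ ∀ (S : Sys d (n + s) s) (q : Fin (n + s) → ℂ), Ext S₀ S → S.per = per →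
      q ∈ S.U → xp q = x → (∀ k, S.b k q = β k) →
      S.KS q ⊆ {ζ : ℂ | ¬ Attd (sp (S₀.co x)) (ζ : OnePoint ℂ)}

/-- The map has simple finite critical points, which are not periodic of period dividing `q`. -/
def Gnr {d : ℕ} (q : ℕ) (x : CV d) : Prop :=
  wr x (1, 0) ≠ 0 ∧ (∃ c : Fin (2 * d - 2) → ℂ, Function.Injective c ∧
    ∀ ζ : ℂ, wr x (ζ, 1) = wr x (1, 0) * ∏ i, (ζ - c i)) ∧
  ∀ p : ℂ × ℂ, p ≠ 0 → wr x p = 0 → cr ((hF x)^[q] p) p ≠ 0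

/-- Genericity in the universal family (the hypotheses are the conclusion of `StFAM`). -/
def StGENX : Prop :=
  ∀ (d : ℕ) (S₀ : BS d (2 * d + 1)) (v : (Fin (2 * d + 1) → ℂ) → CV d)
    (η : (Fin (2 * d + 1) → ℂ) → ℂ),
    (∀ x ∈ S₀.U, ND (v x) ∧ ∀ p : ℂ × ℂ, hF (S₀.co x) (p.1, p.2 - η x * p.1) =
      ((hF (v x) p).1, (hF (v x) p).2 - η x * (hF (v x) p).1)) →
    (∀ x ∈ S₀.U, ∀ ε : ℝ, 0 < ε → ∃ δ : ℝ, 0 < δ ∧ ∀ x' : CV d, ‖x' - v x‖ < δ →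
      ∃ x'' ∈ S₀.U, ‖x'' - x‖ < ε ∧ ∃ a : ℂ, a ≠ 0 ∧ v x'' = a • x') →
    ∀ x₁ ∈ S₀.U, ∀ q : ℕ, 1 ≤ q → S₀.per none ∣ q → ∀ ε : ℝ, 0 < ε →
      ∃ x ∈ S₀.U, ‖x - x₁‖ < ε ∧ Gnr q (S₀.co x)

/-- Cycles without critical points have nonzero multipliers. -/
def StLNE : Prop :=
  ∀ (d n s : ℕ) (S : Sys d n s) (q : ℕ), ∀ x ∈ S.U, (∀ k, S.per k ∣ q) → 1 ≤ q →
    (∀ p : ℂ × ℂ, p ≠ 0 → wr (S.co x) p = 0 → cr ((hF (S.co x))^[q] p) p ≠ 0) →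
    ∀ k, S.lam k x ≠ 0

/-- There are at most `2 d - 2` marked cycles besides the one at infinity. -/
def StNUM : Prop :=
  ∀ (d n s : ℕ) (S : Sys d n s), ∀ x ∈ S.U, (∀ k, S.lam k x ≠ 0) →
    (∃ c : Fin (2 * d - 2) → ℂ, ∀ ζ : ℂ, wr (S.co x) (ζ, 1) = wr (S.co x) (1, 0) * ∏ i, (ζ - c i)) →
    s ≤ 2 * d - 2

/-- properties of the base family -/
structure Hyp {d n l : ℕ} (S₀ : BS d n) (e : Fin l → (Fin n → ℂ) → ℂ) : Prop where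
  ed : ∀ i, DifferentiableOn ℂ (e i) S₀.U
  dim : 2 * d + l ≤ n
  sepe : ∀ x₁ ∈ S₀.U, ∃ ε : ℝ, 0 < ε ∧ ∀ x ∈ S₀.U, ‖x - x₁‖ < ε → (∀ i, e i x = e i x₁) →
    (∀ p : ℂ × ℂ, cr ((S₀.F x)^[S₀.per none] p) ((S₀.F x₁)^[S₀.per none] p) = 0) → x = x₁
  gen : ∀ x₁ ∈ S₀.U, ∀ q : ℕ, 1 ≤ q → S₀.per none ∣ q → ∀ ε : ℝ, 0 < ε →
    ∃ x ∈ S₀.U, ‖x - x₁‖ < ε ∧ Gnr q (S₀.co x)

/-- Good configurations near a map with small non-attracted area. -/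
def StSTART : Prop :=
  ∀ (d n l : ℕ) (S₀ : BS d n) (e : Fin l → (Fin n → ℂ) → ℂ), Hyp S₀ e → ∀ x₁ ∈ S₀.U,
    ∀ ε : ℝ, 0 < ε → ∃ (s : ℕ) (S : Sys d (n + s) s)
      (KK : Option (Fin s) → (Fin (n + s) → ℂ) × (ℂ × ℂ) → ℂ) (y : Ix d (n + s) s → ℂ),
      Ext S₀ S ∧ S.Koe KK ∧ ‖xp (yx y) - x₁‖ < ε ∧
      volume (S.KS (yx y)) ≤ volume {ζ : ℂ | ¬ Attd (sp (S₀.co x₁)) (ζ : OnePoint ℂ)} +
        ENNReal.ofReal ε ∧
      Goodc S KK (ee S e) ∅ (fun _ => none) (fun _ => 0) 0 y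

/-- The minimal principle: there is no maximal good configuration with small non-attracted area near
the base point. -/
def StMINP : Prop :=
  ∀ (d n l : ℕ) (S₀ : BS d n) (e : Fin l → (Fin n → ℂ) → ℂ), Hyp S₀ e → ∀ ρ' η : ℝ, 0 < ρ' →
    0 < η → ∃ ε₁ : ℝ, 0 < ε₁ ∧
    ∀ (s : ℕ) (S : Sys d (n + s) s) (KK : Option (Fin s) → (Fin (n + s) → ℂ) × (ℂ × ℂ) → ℂ)
      (A : Finset (Fin (2 * d - 2))) (ks : Fin (2 * d - 2) → Option (Fin s))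
      (ls : Fin (2 * d - 2) → ℕ) (R : ℕ) (y : Ix d (n + s) s → ℂ), Ext S₀ S →
      S.r₀ none = S₀.r₀ → S.Koe KK → (∀ k, S.b k (yx y) = bp (yx y) k) →
      IsCompact {q | q ∈ S.U ∧ xp q ∈ closedBall S₀.xT (S₀.ρ / 2) ∧ (∀ k, S.b k q = bp q k) ∧
        ∀ k, S.lam k q = S.lam k (yx y)} →
      ‖xp (yx y) - S₀.xT‖ < ε₁ → volume (S.KS (yx y)) ≤ ENNReal.ofReal ε₁ →
      Goodc S KK (ee S e) A ks ls R y → A.card < 2 * d - 2 →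
      ∃ (A' : Finset (Fin (2 * d - 2))) (ks' : Fin (2 * d - 2) → Option (Fin s))
        (ls' : Fin (2 * d - 2) → ℕ) (z : Ix d (n + s) s → ℂ), ‖xp (yx z) - S₀.xT‖ < ρ' ∧
        volume (S.KS (yx z)) ≤ ENNReal.ofReal η ∧
        ((A.card < A'.card ∧ Goodc S KK (ee S e) A' ks' ls' 0 z) ∨
          (A'.card = A.card ∧ Goodc S KK (ee S e) A' ks' ls' (R + 1) z))

/-- Part I for a base family: if there are maps near the base point with small non-attracted area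
then there are hyperbolic maps near the base point. -/
def StSEL : Prop :=
  ∀ (d n l : ℕ) (S₀ : BS d n) (e : Fin l → (Fin n → ℂ) → ℂ), Hyp S₀ e →
    (∀ δ : ℝ, 0 < δ → ∃ x ∈ S₀.U, ‖x - S₀.xT‖ < δ ∧
      volume {ζ : ℂ | ¬ Attd (sp (S₀.co x)) (ζ : OnePoint ℂ)} ≤ ENNReal.ofReal δ) →
    ∀ ε : ℝ, 0 < ε → ∃ x ∈ S₀.U, ‖x - S₀.xT‖ < ε ∧ HypTop (sp (S₀.co x))

/-- Part I for a map with attracting base point at infinity. -/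
def StSEQ : Prop :=
  ∀ (d : ℕ) (x₀ : CV d) (p : ℕ), 2 ≤ d → ND x₀ → Sink (sp x₀) p ∞ →
    (∀ δ : ℝ, 0 < δ → ∃ x : CV d, ‖x - x₀‖ < δ ∧ ND x ∧
      volume {z : ℂ | ¬ Attd (sp x) (z : OnePoint ℂ)} ≤ ENNReal.ofReal δ) →
    ∀ ε : ℝ, 0 < ε → ∃ x : CV d, ‖x - x₀‖ < ε ∧ ND x ∧ HypTop (sp x)

end Pool.Agent.W757.RC
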