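import Mathlib
import Pool.Agent.W757.RC.St
import Pool.Agent.H790R3.RB.Basic

set_option autoImplicit false

open Topology Filter Metric Set MeasureTheory

open Pool.Agent.H790R3.RB

namespace Pool.Agent.W757.RC

namespace ADO

variable {d n s : ℕ}

theorem yx_diff : Differentiable ℂ (fun y : Ix d n s → ℂ => yx y) :=
  differentiable_pi.2 fun _ => differentiable_apply _

theorem yc_diff (i : Fin (2 * d - 2)) : Differentiable ℂ (fun y : Ix d n s → ℂ => yc y i) :=
  differentiable_apply _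

theorem yk_diff (k : Option (Fin s)) : Differentiable ℂ (fun y : Ix d n s → ℂ => yk y k) := by
  cases k with
  | none => exact differentiable_const 1
  | some k => exact differentiable_apply _

/-- the configurations with parameter in the ball -/
def O1 (S : Sys d n s) : Set (Ix d n s → ℂ) := {y | yx y ∈ S.U}

theorem O1_open (S : Sys d n s) : IsOpen (O1 S) :=
  S.hU.preimage (yx_diff (d := d) (n := n) (s := s)).continuous

theorem co_diff (S : Sys d n s) : DifferentiableOn ℂ (fun y : Ix d n s → ℂ => S.co (yx y)) (O1 S) :=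
  S.hco.comp yx_diff.differentiableOn fun _ hy => hy

/-- transported critical points -/
noncomputable def Φ (S : Sys d n s) (m : ℕ) (i : Fin (2 * d - 2)) (y : Ix d n s → ℂ) :
    (Fin n → ℂ) × (ℂ × ℂ) := (yx y, (S.F (yx y))^[m] (yc y i, 1))


theorem Φ_diff (S : Sys d n s) (m : ℕ) (i : Fin (2 * d - 2)) :
    DifferentiableOn ℂ (Φ S m i) (O1 S) := by
  have h : DifferentiableOn ℂ (fun y : Ix d n s → ℂ => (S.co (yx y), ((yc y i, 1) : ℂ × ℂ)))
      (O1 S) :=
    (co_diff S).prodMk ((yc_diff i).differentiableOn.prodMk (differentiableOn_const 1))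
  have h2 : DifferentiableOn ℂ (fun y : Ix d n s → ℂ => (hF (S.co (yx y)))^[m] (yc y i, 1)) (O1 S) :=
    (hF_iter_differentiable d m).comp_differentiableOn h
  exact DifferentiableOn.prodMk (yx_diff (d := d) (n := n) (s := s)).differentiableOn h2

theorem Er_diff (S : Sys d n s) (j : Fin (2 * d - 2)) : DifferentiableOn ℂ (S.Er j) (O1 S) := by
  have hw : Differentiable ℂ (fun q : CV d × (ℂ × ℂ) => wr q.1 q.2) :=
    (wr_contDiff d 1).differentiable (by norm_num)
  have h1 : ∀ p : ℂ × ℂ, DifferentiableOn ℂ (fun y : Ix d n s → ℂ => wr (S.co (yx y)) p) (O1 S) := by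
    intro p
    have h : DifferentiableOn ℂ (fun y : Ix d n s → ℂ => (S.co (yx y), p)) (O1 S) :=
      (co_diff S).prodMk (differentiableOn_const p)
    have h5 := hw.comp_differentiableOn h
    simp only [Function.comp_def] at h5
    exact h5
  have h2 : Differentiable ℂ
      (fun y : Ix d n s → ℂ => ∏ i : Fin (2 * d - 2), (((j : ℕ) : ℂ) - yc y i)) := by
    have h3 : ContDiff ℂ 1 (fun y : Ix d n s → ℂ =>
        ∏ i ∈ (Finset.univ : Finset (Fin (2 * d - 2))), (((j : ℕ) : ℂ) - yc y i)) :=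
      contDiff_prod fun i _ => contDiff_const.sub
        (contDiff_apply ℂ ℂ (Sum.inr (Sum.inl i) : Ix d n s))
    exact h3.differentiable (by norm_num)
  have h4 : DifferentiableOn ℂ (fun y : Ix d n s → ℂ => wr (S.co (yx y)) (((j : ℕ) : ℂ), 1) -
      wr (S.co (yx y)) (1, 0) * ∏ i : Fin (2 * d - 2), (((j : ℕ) : ℂ) - yc y i)) (O1 S) :=
    (h1 _).sub ((h1 _).mul h2.differentiableOn)
  exact h4

end ADO

open ADO in
theorem ADO (hLAM : StLAM) : StADO := by
  intro d n s l S KK e A ks ls hK he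
  obtain ⟨hlam, hbet, -, -, -, -⟩ := hLAM d n s S
  have hyx : MapsTo (fun y : Ix d n s → ℂ => yx y) (O1 S) S.U := fun _ hy => hy
  have hlamO : ∀ k, DifferentiableOn ℂ (fun y : Ix d n s → ℂ => S.lam k (yx y)) (O1 S) := by
    intro k
    exact DifferentiableOn.comp (hlam k) yx_diff.differentiableOn hyx
  set O : Set (Ix d n s → ℂ) := {y | yx y ∈ S.U ∧ (∀ k, S.lam k (yx y) ≠ 0) ∧
        ∀ i ∈ A, (yx y, (S.F (yx y))^[ls i] (yc y i, 1)) ∈ S.Dom (ks i)} with hO
  have hOO1 : O ⊆ O1 S := fun y hy => hy.1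
  have hopen : IsOpen O := by
    have e1 : O = (O1 S ∩ ⋂ k, (O1 S ∩ (fun y : Ix d n s → ℂ => S.lam k (yx y)) ⁻¹' {0}ᶜ)) ∩
        ⋂ i ∈ A, (O1 S ∩ (Φ S (ls i) i) ⁻¹' S.Dom (ks i)) := by
      ext y
      constructor
      · rintro ⟨a, b, c⟩
        refine ⟨⟨a, mem_iInter.2 fun k => ⟨a, b k⟩⟩, mem_iInter₂.2 fun i hi => ⟨a, c i hi⟩⟩
      · rintro ⟨⟨a, b⟩, c⟩
        exact ⟨a, fun k => (mem_iInter.1 b k).2, fun i hi => (mem_iInter₂.1 c i hi).2⟩
    rw [e1]
    refine IsOpen.inter (IsOpen.inter (O1_open S) (isOpen_iInter_of_finite fun k => ?_))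
      (isOpen_biInter_finset fun i _ => ?_)
    · exact (hlamO k).continuousOn.isOpen_inter_preimage (O1_open S) isOpen_compl_singleton
    · exact (Φ_diff S (ls i) i).continuousOn.isOpen_inter_preimage (O1_open S) (hK.opn _)
  have hKKd : ∀ i ∈ A, DifferentiableOn ℂ
        (fun y : Ix d n s → ℂ => KK (ks i) (yx y, (S.F (yx y))^[ls i] (yc y i, 1))) O := by
    intro i hi
    have hm : MapsTo (Φ S (ls i) i) O (S.Dom (ks i)) := fun y hy => hy.2.2 i hi
    have h := DifferentiableOn.comp (hK.dif (ks i)) ((Φ_diff S (ls i) i).mono hOO1) hm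
    exact h
  refine ⟨O, hopen, rfl, fun j => (Er_diff S j).mono hOO1, hKKd, ?_⟩
  have hsub : O ∩ {y | ∀ k, yk y k ≠ 0} ⊆ O1 S := fun y hy => hOO1 hy.1
  rintro (i | k | u | i)
  · have h : DifferentiableOn ℂ (fun y : Ix d n s → ℂ => e i (yx y)) (O1 S) :=
      DifferentiableOn.comp (he i) yx_diff.differentiableOn hyx
    exact h.mono hsub
  · exact (hlamO k).mono hsub
  · have h : DifferentiableOn ℂ (fun y : Ix d n s → ℂ => S.bet (yx y)) (O1 S) :=
      DifferentiableOn.comp hbet yx_diff.differentiableOn hyx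
    exact h.mono hsub
  · have h1 : DifferentiableOn ℂ (fun y : Ix d n s → ℂ =>
        KK (ks i) (yx y, (S.F (yx y))^[ls i] (yc y i, 1))) (O ∩ {y | ∀ k, yk y k ≠ 0}) :=
      (hKKd i i.2).mono inter_subset_left
    have h2 : DifferentiableOn ℂ (fun y : Ix d n s → ℂ => yk y (ks i))
        (O ∩ {y | ∀ k, yk y k ≠ 0}) := (yk_diff (ks i)).differentiableOn
    have h3 : ∀ y ∈ O ∩ {y : Ix d n s → ℂ | ∀ k, yk y k ≠ 0}, yk y (ks i) ≠ 0 :=
      fun y hy => hy.2 _
    have h4 := DifferentiableOn.fun_mul h1 (DifferentiableOn.fun_inv h2 h3)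
    refine h4.congr fun y _ => ?_
    show KK (ks i) (yx y, (S.F (yx y))^[ls i] (yc y i, 1)) / yk y (ks i) = _
    rw [div_eq_mul_inv]

end Pool.Agent.W757.RC
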