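import Mathlib
import Pool.Agent.W757.RC.St
import Pool.Agent.H790R3.RB.Basic

/-! AU: unique addresses, finitely many exceptional points, `WN` closed (helper152) -/

set_option autoImplicit false

open Topology Filter Metric Set MeasureTheory

open Pool.Agent.H790R3.RB

namespace Pool.Agent.W757.RC

namespace AU

variable {d n s : ℕ} (S : Sys d n s)

theorem iter_inf {x : Fin n → ℂ} (hx : x ∈ S.U) (j : ℕ) :
    ∃ c : ℂ, c ≠ 0 ∧ (S.F x)^[S.per none * j] (1, 0) = (c, 0) := by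
  induction j with
  | zero => exact ⟨1, one_ne_zero, rfl⟩
  | succ j ih =>
    obtain ⟨c, hc, hc'⟩ := ih
    obtain ⟨a, z', ha, hz', h⟩ := S.contr x hx none 0 (by simpa using (S.hr₀ none))
    rw [norm_zero, mul_zero, norm_le_zero_iff] at hz'
    subst hz'
    have h1 : (hF (S.co x))^[S.per none] (1, 0) = a • ((1 : ℂ), (0 : ℂ)) := h
    have e : S.per none * (j + 1) = S.per none + S.per none * j := by ring
    refine ⟨c ^ (d ^ S.per none) * a, mul_ne_zero (pow_ne_zero _ hc) ha, ?_⟩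
    rw [e, Function.iterate_add_apply, hc']
    have h2 : ((c, 0) : ℂ × ℂ) = c • ((1 : ℂ), (0 : ℂ)) := by simp
    show (hF (S.co x))^[S.per none] (c, 0) = _
    rw [h2, hF_iter_smul, h1, smul_smul]
    simp

theorem F_ne {x : Fin n → ℂ} (hx : x ∈ S.U) (Nt : ℕ) (ζ : ℂ) :
    (S.F x)^[Nt] (ζ, 1) ≠ 0 :=
  ND.iter_ne (S.nd x hx) Nt (fun h => one_ne_zero (congrArg Prod.snd h))

/-- finitely many points are mapped to a given point -/
theorem fin_preim (hPOLY : StPOLY) {x : Fin n → ℂ} (hx : x ∈ S.U) (Nt : ℕ)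
    (hdiv : S.per none ∣ Nt) {v : ℂ × ℂ} (hv : v ≠ 0) :
    {ζ : ℂ | cr ((S.F x)^[Nt] (ζ, 1)) v = 0}.Finite := by
  have hd := S.hd
  obtain ⟨A, B, hA, hB, hA1, hB1, hA2, hB2⟩ := hPOLY d (S.co x) Nt (by omega)
  obtain ⟨j, rfl⟩ := hdiv
  obtain ⟨c, hc, hc'⟩ := iter_inf S hx j
  have hc'' : (hF (S.co x))^[S.per none * j] (1, 0) = (c, 0) := hc'
  rw [hc''] at hA2 hB2
  have hp : Polynomial.C v.2 * A - Polynomial.C v.1 * B ≠ 0 := by
    intro h0
    have h1 := congrArg (fun p => Polynomial.coeff p (d ^ (S.per none * j))) h0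
    simp only [Polynomial.coeff_sub, Polynomial.coeff_C_mul, hA2, hB2, mul_zero, sub_zero,
      Polynomial.coeff_zero] at h1
    have hv2 : v.2 = 0 := (mul_eq_zero.1 h1).resolve_right hc
    have hv1 : v.1 ≠ 0 := fun h => hv (Prod.ext h hv2)
    rw [hv2, map_zero, zero_mul, zero_sub, neg_eq_zero] at h0
    have hB0 : B = 0 := (mul_eq_zero.1 h0).resolve_left (by simpa using hv1)
    have hdeg : 0 < A.degree := by
      rw [← Polynomial.natDegree_pos_iff_degree_pos]
      have h2 : d ^ (S.per none * j) ≤ A.natDegree :=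
        Polynomial.le_natDegree_of_ne_zero (by rw [hA2]; exact hc)
      have h3 : 0 < d ^ (S.per none * j) := pow_pos (by omega) _
      omega
    obtain ⟨z, hz⟩ := Complex.exists_root hdeg
    refine F_ne S hx (S.per none * j) z (Prod.ext ?_ ?_)
    · have := hA1 z
      rw [hz.eq_zero] at this
      exact this.symm
    · have := hB1 z
      rw [hB0, Polynomial.eval_zero] at this
      exact this.symm
  refine (Polynomial.finite_setOf_isRoot hp).subset ?_
  intro ζ hζ
  have h : ((S.F x)^[S.per none * j] (ζ, 1)).1 * v.2 - ((S.F x)^[S.per none * j] (ζ, 1)).2 * v.1 = 0 :=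
    hζ
  show Polynomial.IsRoot _ _
  rw [Polynomial.IsRoot.def, Polynomial.eval_sub, Polynomial.eval_mul, Polynomial.eval_mul,
    Polynomial.eval_C, Polynomial.eval_C, hA1, hB1]
  rw [← h]
  show v.2 * ((S.F x)^[S.per none * j] (ζ, 1)).1 - v.1 * ((S.F x)^[S.per none * j] (ζ, 1)).2 = _
  ring

theorem cht_cont (k : Option (Fin s)) (x : Fin n → ℂ) : Continuous (fun z => S.cht k x z) := by
  cases k with
  | none =>
    show Continuous (fun z : ℂ => ((1 : ℂ), z))
    fun_prop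
  | some k =>
    show Continuous (fun z : ℂ => (S.b k x + z, (1 : ℂ)))
    fun_prop

theorem iter_cont (x : Fin n → ℂ) (l : ℕ) : Continuous ((S.F x)^[l]) :=
  (hF_iter_continuous d l).comp (by fun_prop : Continuous (fun p : ℂ × ℂ => (S.co x, p)))

theorem cr_cont : Continuous (fun p : (ℂ × ℂ) × (ℂ × ℂ) => cr p.1 p.2) := by
  unfold cr
  fun_prop

end AU

open AU in
theorem AU (hORB : StORB) (hPOLY : StPOLY) : StAU := by
  intro d n s S KK r N ω Nt r₂ τ x κ Sx hD t ht
  have hN := hD.dsc.xN t ht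
  have hU := hD.lin.NU hN
  have hκ : ∀ k, ∀ w : ℂ, ‖w‖ < r₂ → ‖κ k t * w‖ < r := by
    intro k w hw
    rw [norm_mul]
    refine lt_of_le_of_lt ?_ (hD.dsc.κr k t ht)
    exact mul_le_mul_of_nonneg_left hw.le (norm_nonneg _)
  refine ⟨?_, ?_, ?_⟩
  · intro k k' l hl l' hl' w w' ζ hw hw' h1 h2
    have h3 : cr (S.pt ω k l (x t) (κ k t * w)) (S.pt ω k' l' (x t) (κ k' t * w')) = 0 := by
      refine cr_trans (F_ne S hU Nt ζ) ?_ h2
      rw [cr_comm, neg_eq_zero]
      exact h1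
    obtain ⟨e1, e2, e3⟩ := (hORB d n s S KK r N ω hD.koe hD.lin (x t) hN k k' _ _ (hκ k w hw)
      (hκ k' w' hw') l l').2.2.1 h3
    subst e1
    rw [Nat.mod_eq_of_lt hl, Nat.mod_eq_of_lt hl'] at e2
    subst e2
    rw [Nat.div_eq_of_lt hl, pow_zero, one_mul, one_mul] at e3
    exact ⟨rfl, rfl, mul_left_cancel₀ (hD.dsc.κ0 k t ht) e3⟩
  · have hfin : (⋃ k : Option (Fin s), ⋃ l ∈ Finset.range (S.per k),
        ⋃ w ∈ ({w | (w = 0 ∨ w ∈ Sx k l) ∧ ‖w‖ < r₂} : Set ℂ),
          {ζ : ℂ | Ad S ω Nt x κ t k l w ζ}).Finite := by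
      refine Set.finite_iUnion (fun k => ?_)
      refine Set.Finite.biUnion (Finset.finite_toSet _) (fun l _ => ?_)
      refine Set.Finite.biUnion ?_ (fun w hw => ?_)
      · refine ((Set.finite_singleton (0 : ℂ)).union (hD.fin k l)).subset ?_
        rintro w ⟨hw, -⟩
        exact hw
      · exact fin_preim S hPOLY hU Nt (hD.div none) 
          (hORB d n s S KK r N ω hD.koe hD.lin (x t) hN k k _ _ (hκ k w hw.2)
            (hκ k w hw.2) l l).1
    refine hfin.subset ?_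
    rintro ζ ⟨k, l, hl, w, hw, hw', hζ⟩
    simp only [mem_iUnion]
    exact ⟨k, l, Finset.mem_range.2 hl, w, ⟨hw', hw⟩, hζ⟩
  · intro r₁ hr₁ hr₁₂
    have e : S.WN ω Nt r₁ (x t) (fun k => κ k t) = ⋃ k : Option (Fin s),
        ⋃ l ∈ Finset.range (S.per k), {ζ : ℂ | ∃ w : ℂ, ‖w‖ ≤ r₁ ∧
          cr ((S.F (x t))^[Nt] (ζ, 1)) (S.pt ω k l (x t) (κ k t * w)) = 0} := by
      ext ζ
      simp only [mem_iUnion]
      constructor
      · rintro ⟨k, l, hl, w, hw, h⟩
        exact ⟨k, l, Finset.mem_range.2 hl, w, hw, h⟩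
      · rintro ⟨k, l, hl, w, hw, h⟩
        exact ⟨k, l, Finset.mem_range.1 hl, w, hw, h⟩
    rw [e]
    refine isClosed_iUnion_of_finite (fun k => ?_)
    refine Set.Finite.isClosed_biUnion (Finset.finite_toSet _) (fun l _ => ?_)
    haveI : CompactSpace (closedBall (0 : ℂ) r₁) :=
      isCompact_iff_compactSpace.1 (isCompact_closedBall (0 : ℂ) r₁)
    have hωc : Continuous (fun w : closedBall (0 : ℂ) r₁ => ω k (x t, κ k t * (w : ℂ))) := by
      have h1 : ContinuousOn (fun w : ℂ => ω k (x t, κ k t * w)) (closedBall (0 : ℂ) r₁) := by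
        refine (hD.lin.ωd k).continuousOn.comp (by fun_prop) ?_
        intro w hw
        refine ⟨hN, ?_⟩
        rw [mem_ball_zero_iff]
        exact hκ k w (lt_of_le_of_lt (by simpa using hw) hr₁₂)
      exact continuousOn_iff_continuous_restrict.1 h1
    have hg : Continuous (fun q : ℂ × closedBall (0 : ℂ) r₁ =>
        cr ((S.F (x t))^[Nt] (q.1, 1)) (S.pt ω k l (x t) (κ k t * (q.2 : ℂ)))) := by
      refine cr_cont.comp (Continuous.prodMk ?_ ?_)
      · exact (iter_cont S (x t) Nt).comp (by fun_prop)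
      · exact (iter_cont S (x t) l).comp ((cht_cont S k (x t)).comp (hωc.comp continuous_snd))
    have hcl := isClosedMap_fst_of_compactSpace (X := ℂ) (Y := closedBall (0 : ℂ) r₁) _
      (isClosed_eq hg continuous_const : IsClosed {q : ℂ × closedBall (0 : ℂ) r₁ |
        cr ((S.F (x t))^[Nt] (q.1, 1)) (S.pt ω k l (x t) (κ k t * (q.2 : ℂ))) = 0})
    convert hcl using 1
    ext ζ
    constructor
    · rintro ⟨w, hw, h⟩
      exact ⟨(ζ, ⟨w, by simpa using hw⟩), h, rfl⟩
    · rintro ⟨⟨ζ', w⟩, h, rfl⟩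
      exact ⟨w, mem_closedBall_zero_iff.1 w.2, h⟩

end Pool.Agent.W757.RC
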