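import Mathlib
import Pool.Agent.W757.RC.St
import Pool.Agent.H790R3.RB.Basic

/-! Task CNJ: the motion is a conjugacy. -/

set_option autoImplicit false

open Topology Filter Metric Set MeasureTheory

open Pool.Agent.H790R3.RB

namespace Pool.Agent.W757.RC

namespace CNJ

variable {d n s : ℕ} (S : Sys d n s)

theorem one_ne (ζ : ℂ) : ((ζ, 1) : ℂ × ℂ) ≠ 0 := by
  intro h
  have := congrArg Prod.snd h
  simp at this

/-- the return map does not decrease the modulus near infinity -/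
theorem big {x : Fin n → ℂ} (hx : x ∈ S.U) {ζ : ℂ} (hζ : 1 / S.r₀ none < ‖ζ‖)
    (h2 : ((S.F x)^[S.per none] (ζ, 1)).2 ≠ 0) : ‖ζ‖ ≤ ‖rt (S.co x) (S.per none) ζ‖ := by
  have hr0 := (S.hr₀ none)
  have hζ0 : 0 < ‖ζ‖ := lt_trans (by positivity) hζ
  have hζn : ζ ≠ 0 := norm_pos_iff.1 hζ0
  have hz : ‖ζ⁻¹‖ < (S.r₀ none) := by
    rw [norm_inv]
    rw [one_div] at hζ
    exact (inv_lt_comm₀ hr0 hζ0).1 hζ
  obtain ⟨a, z', ha, hz', he⟩ := S.contr x hx none ζ⁻¹ hz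
  have e1 : ((ζ, 1) : ℂ × ℂ) = ζ • ch S.b none x ζ⁻¹ := by
    ext
    · simp [ch]
    · simp [ch, hζn]
  have e2 : (hF (S.co x))^[S.per none] (ζ, 1) =
      (ζ ^ (d ^ S.per none) * a, ζ ^ (d ^ S.per none) * a * z') := by
    rw [e1, hF_iter_smul, he]
    ext
    · simp [ch]
    · simp [ch, mul_assoc]
  have e3 : (S.F x)^[S.per none] (ζ, 1) =
      (ζ ^ (d ^ S.per none) * a, ζ ^ (d ^ S.per none) * a * z') := e2
  rw [e3] at h2
  have hc : ζ ^ (d ^ S.per none) * a ≠ 0 := left_ne_zero_of_mul h2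
  have hz0 : z' ≠ 0 := right_ne_zero_of_mul h2
  have e4 : rt (S.co x) (S.per none) ζ = z'⁻¹ := by
    unfold rt
    rw [e2]
    field_simp
  rw [e4, norm_inv]
  have hz1 : ‖z'‖ ≤ ‖ζ‖⁻¹ := by
    rw [norm_inv] at hz'
    have h3 : S.θ * ‖ζ‖⁻¹ ≤ 1 * ‖ζ‖⁻¹ :=
      mul_le_mul_of_nonneg_right S.hθ.le (by positivity)
    linarith
  exact (le_inv_comm₀ (norm_pos_iff.2 hz0) hζ0).1 hz1

theorem pt_add (ω : Option (Fin s) → (Fin n → ℂ) × ℂ → ℂ) (k : Option (Fin s)) (a b : ℕ)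
    (x : Fin n → ℂ) (w : ℂ) : S.pt ω k (a + b) x w = (S.F x)^[a] (S.pt ω k b x w) := by
  unfold Sys.pt
  rw [Function.iterate_add_apply]

variable {S}

/-- reduction of the time modulo the period -/
theorem pt_red (hORB : StORB) {KK : Option (Fin s) → (Fin n → ℂ) × (ℂ × ℂ) → ℂ} {r : ℝ}
    {N : Set (Fin n → ℂ)} {ω : Option (Fin s) → (Fin n → ℂ) × ℂ → ℂ} (hK : S.Koe KK)
    (hL : S.Lin KK N r ω) {x : Fin n → ℂ} (hx : x ∈ N) (k : Option (Fin s))
    (hl : ‖S.lam k x‖ ≤ 1) (l a : ℕ) : ∀ w : ℂ, ‖w‖ < r →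
    cr (S.pt ω k (S.per k * a + l) x w) (S.pt ω k l x (S.lam k x ^ a * w)) = 0 := by
  have hr := hL.hr
  induction a with
  | zero =>
    intro w _
    simp only [Nat.mul_zero, Nat.zero_add, pow_zero, one_mul]
    exact cr_self _
  | succ a ih =>
    intro w hw
    have hw' : ‖S.lam k x * w‖ < r := by
      rw [norm_mul]
      calc ‖S.lam k x‖ * ‖w‖ ≤ 1 * ‖w‖ := mul_le_mul_of_nonneg_right hl (norm_nonneg _)
        _ < r := by rwa [one_mul]
    have e1 : S.per k * (a + 1) + l = S.per k + (S.per k * a + l) := by ring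
    have e2 : S.lam k x ^ (a + 1) * w = S.lam k x ^ a * (S.lam k x * w) := by ring
    have h1 := (hORB d n s S KK r N ω hK hL x hx k k w w hw hw (S.per k * a + l) 0).2.1
    have h2 := (hORB d n s S KK r N ω hK hL x hx k k (S.lam k x * w) w hw' hw
      (S.per k * a + l) 0).1
    rw [e1, e2]
    exact cr_trans h2 h1 (ih _ hw')

/-- the conjugacy at points with nonexceptional addresses -/
theorem gener (hORB : StORB) (hLAM : StLAM) (hAU : StAU)
    {KK : Option (Fin s) → (Fin n → ℂ) × (ℂ × ℂ) → ℂ} {r : ℝ}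
    {N : Set (Fin n → ℂ)} {ω : Option (Fin s) → (Fin n → ℂ) × ℂ → ℂ} {Nt : ℕ}
    {r₂ τ : ℝ} {x : ℂ → (Fin n → ℂ)} {κ : Option (Fin s) → ℂ → ℂ}
    {Sx : Option (Fin s) → ℕ → Set ℂ} {W : Set ℂ} {Φ : ℂ → ℂ → ℂ}
    (hD : DD S KK r N ω Nt r₂ τ x κ Sx) (hM : Mo S ω Nt r₂ τ x κ Sx W Φ) {t : ℂ}
    (ht : t ∈ ball (0 : ℂ) τ) {ζ : ℂ} (hζ : ζ ∈ W)
    (hg : rt (S.co (x 0)) (S.per none) ζ ∈ W) :
    cr ((S.F (x t))^[S.per none] (Φ t ζ, 1)) (Φ t (rt (S.co (x 0)) (S.per none) ζ), 1) = 0 := by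
  have hK := hD.koe
  have hL := hD.lin
  have hτ := hD.dsc.hτ
  have h0 : (0 : ℂ) ∈ ball (0 : ℂ) τ := mem_ball_self hτ
  obtain ⟨k, l, hl, w, hw0, hwr, hwS, hA⟩ := (hM.mem ζ).1 hζ
  obtain ⟨k1, l1, hl1, w1, hw10, hw1r, hw1S, hA1⟩ := (hM.mem _).1 hg
  -- the multiplier
  set lam : ℂ := S.lam k (x 0) with hlam
  have hlamt : ∀ t' ∈ ball (0 : ℂ) τ, S.lam k (x t') = lam := fun t' ht' =>
    hD.dsc.lamc k t' ht'
  have hlam1 : ‖lam‖ ≤ 1 :=
    ((hLAM d n s S).2.2.1 k (x 0) (hL.NU (hD.dsc.xN 0 h0))).trans S.hθ.le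
  have hlam0 : lam ≠ 0 := hL.lam0 (x 0) (hD.dsc.xN 0 h0) k
  -- the new address
  set a : ℕ := (S.per none + l) / S.per k with ha
  set l' : ℕ := (S.per none + l) % S.per k with hl'
  have hperk : 0 < S.per k := S.hper k
  have hl'lt : l' < S.per k := Nat.mod_lt _ hperk
  have hal : S.per none + l = S.per k * a + l' := (Nat.div_add_mod _ _).symm
  set w' : ℂ := lam ^ a * w with hw'
  have hw'0 : w' ≠ 0 := mul_ne_zero (pow_ne_zero _ hlam0) hw0
  have hw'r : ‖w'‖ < r₂ := by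
    rw [hw', norm_mul, norm_pow]
    calc ‖lam‖ ^ a * ‖w‖ ≤ 1 * ‖w‖ :=
          mul_le_mul_of_nonneg_right (pow_le_one₀ (norm_nonneg _) hlam1) (norm_nonneg _)
      _ < r₂ := by rwa [one_mul]
  -- the images at time `t'`
  have hsmall : ∀ t' ∈ ball (0 : ℂ) τ, ∀ v : ℂ, ‖v‖ < r₂ → ‖κ k t' * v‖ < r := by
    intro t' ht' v hv
    rw [norm_mul]
    calc ‖κ k t'‖ * ‖v‖ ≤ ‖κ k t'‖ * r₂ := mul_le_mul_of_nonneg_left hv.le (norm_nonneg _)
      _ < r := hD.dsc.κr k t' ht'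
  set u : ℂ → ℂ × ℂ := fun t' => (S.F (x t'))^[S.per none] (Φ t' ζ, 1) with hu
  have hnd : ∀ t' ∈ ball (0 : ℂ) τ, ND (S.co (x t')) := fun t' ht' =>
    S.nd _ (hL.NU (hD.dsc.xN t' ht'))
  have hune : ∀ t' ∈ ball (0 : ℂ) τ, u t' ≠ 0 := fun t' ht' =>
    (hnd t' ht').iter_ne _ (one_ne _)
  have hpar : ∀ t' ∈ ball (0 : ℂ) τ,
      cr ((S.F (x t'))^[Nt] (u t')) (S.pt ω k l' (x t') (κ k t' * w')) = 0 := by
    intro t' ht'
    have hxN := hD.dsc.xN t' ht'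
    have hκw := hsmall t' ht' w hwr
    have h1 := hM.ad k l hl w hw0 hwr hwS ζ hA t' ht'
    unfold Ad at h1
    have h2 : (S.F (x t'))^[Nt] (Φ t' ζ, 1) ≠ 0 := (hnd t' ht').iter_ne _ (one_ne _)
    have h3 : S.pt ω k l (x t') (κ k t' * w) ≠ 0 :=
      (hORB d n s S KK r N ω hK hL (x t') hxN k k (κ k t' * w) (κ k t' * w) hκw hκw l 0).1
    have h4 := cr_iter (S.co (x t')) (S.per none) h2 h3 h1
    have e1 : (hF (S.co (x t')))^[S.per none] ((S.F (x t'))^[Nt] (Φ t' ζ, 1)) =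
        (S.F (x t'))^[Nt] (u t') := by
      change (S.F (x t'))^[S.per none] ((S.F (x t'))^[Nt] (Φ t' ζ, 1)) =
        (S.F (x t'))^[Nt] ((S.F (x t'))^[S.per none] (Φ t' ζ, 1))
      rw [← Function.iterate_add_apply, ← Function.iterate_add_apply, Nat.add_comm]
    have e2 : (hF (S.co (x t')))^[S.per none] (S.pt ω k l (x t') (κ k t' * w)) =
        S.pt ω k (S.per k * a + l') (x t') (κ k t' * w) := by
      rw [← hal, pt_add]
      rfl
    rw [e1, e2] at h4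
    have h5 := pt_red hORB hK hL hxN k (by rw [hlamt t' ht']; exact hlam1) l' a
      (κ k t' * w) hκw
    have e3 : S.lam k (x t') ^ a * (κ k t' * w) = κ k t' * w' := by
      rw [hlamt t' ht', hw']; ring
    rw [e3] at h5
    exact cr_trans (hORB d n s S KK r N ω hK hL (x t') hxN k k (κ k t' * w) (κ k t' * w)
      hκw hκw (S.per k * a + l') 0).1 h4 h5
  -- the images are finite points
  have hu2 : ∀ t' ∈ ball (0 : ℂ) τ, (u t').2 ≠ 0 := by
    intro t' ht' hcon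
    have hxN := hD.dsc.xN t' ht'
    have hκw := hsmall t' ht' w' hw'r
    have e1 : u t' = (u t').1 • S.cht none (x t') (ω none (x t', 0)) := by
      rw [hL.ω0 none (x t') hxN]
      ext
      · simp [Sys.cht, ch]
      · simp [Sys.cht, ch, hcon]
    have hu1 : (u t').1 ≠ 0 := by
      intro h
      exact hune t' ht' (Prod.ext h hcon)
    have h1 := hpar t' ht'
    rw [e1] at h1
    have e2 : (S.F (x t'))^[Nt] ((u t').1 • S.cht none (x t') (ω none (x t', 0))) =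
        (u t').1 ^ (d ^ Nt) • S.pt ω none Nt (x t') 0 := by
      exact hF_iter_smul _ _ _ _
    rw [e2, cr_smul_left] at h1
    have h2 := (mul_eq_zero.1 h1).resolve_left (pow_ne_zero _ hu1)
    have h3 := (hORB d n s S KK r N ω hK hL (x t') hxN none k 0 (κ k t' * w')
      (by rw [norm_zero]; exact hL.hr) hκw Nt l').2.2.1 h2
    have h4 := h3.2.2
    rw [mul_zero] at h4
    exact (mul_ne_zero (pow_ne_zero _ (hL.lam0 (x t') hxN none))
      (mul_ne_zero (hD.dsc.κ0 k t' ht') hw'0)) h4.symm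
  set Z' : ℂ → ℂ := fun t' => (u t').1 / (u t').2 with hZ'
  have hAd : ∀ t' ∈ ball (0 : ℂ) τ, Ad S ω Nt x κ t' k l' w' (Z' t') := by
    intro t' ht'
    unfold Ad
    have h1 := hpar t' ht'
    have h2 := hu2 t' ht'
    have e1 : u t' = (u t').2 • ((Z' t', 1) : ℂ × ℂ) := by
      ext
      · simp only [hZ', Prod.smul_fst, smul_eq_mul]
        field_simp
      · simp
    rw [e1] at h1
    have e2 : (S.F (x t'))^[Nt] ((u t').2 • ((Z' t', 1) : ℂ × ℂ)) =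
        (u t').2 ^ (d ^ Nt) • (S.F (x t'))^[Nt] (Z' t', 1) := hF_iter_smul _ _ _ _
    rw [e2, cr_smul_left] at h1
    exact (mul_eq_zero.1 h1).resolve_left (pow_ne_zero _ h2)
  have hZ0 : Z' 0 = rt (S.co (x 0)) (S.per none) ζ := by
    simp only [hZ', hu, hM.Φ0 ζ hζ]
    rfl
  -- the address of the image is nonexceptional
  obtain ⟨hk1, hl1', hw1'⟩ := (hAU d n s S KK r N ω Nt r₂ τ x κ Sx hD 0 h0).1 k1 k l1 hl1 l'
    hl'lt w1 w' _ hw1r hw'r hA1 (hZ0 ▸ hAd 0 h0)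
  have hw'S : w' ∉ Sx k l' := by
    rw [← hw1', ← hk1, ← hl1']
    exact hw1S
  -- continuity
  have hcont : ContinuousOn Z' (ball 0 τ) := by
    have hxc : ContinuousOn x (ball 0 τ) := hD.dsc.xd.continuousOn
    have hcoc : ContinuousOn (fun t' => S.co (x t')) (ball 0 τ) :=
      S.hco.continuousOn.comp hxc (fun t' ht' => hL.NU (hD.dsc.xN t' ht'))
    have hΦc : ContinuousOn (fun t' => Φ t' ζ) (ball 0 τ) := by
      have h1 := hM.Φd.continuousOn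
      exact h1.comp (f := fun t' : ℂ => (t', ζ)) (by fun_prop) (fun t' ht' => ⟨ht', hζ⟩)
    have huc : ContinuousOn u (ball 0 τ) := by
      have h1 := (hF_iter_continuous d (S.per none)).comp_continuousOn
        (hcoc.prodMk (hΦc.prodMk continuousOn_const : ContinuousOn
          (fun t' => ((Φ t' ζ, 1) : ℂ × ℂ)) (ball 0 τ)))
      exact h1
    exact (huc.fst).div (huc.snd) hu2
  have hfin := hM.unq k l' hl'lt w' hw'0 hw'r hw'S (rt (S.co (x 0)) (S.per none) ζ)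
    (hZ0 ▸ hAd 0 h0) Z' hcont ⟨0, h0, by rw [hZ0, hM.Φ0 _ hg]⟩ hAd t ht
  rw [← hfin]
  have h2 := hu2 t ht
  change cr (u t) (Z' t, 1) = 0
  simp only [cr, hZ']
  field_simp
  ring

end CNJ

theorem CNJ (hORB : StORB) (hLAM : StLAM) (hAU : StAU) : StCNJ := by
  intro d n s S KK r N ω Nt r₂ τ x κ Sx W Φ hD hM hE t ht Ψ hΨ hΨE ζ hζ h2
  obtain ⟨E₁, hE₁, hE₁W⟩ := hE
  obtain ⟨E₂, hE₂, hE₂Ψ⟩ := hΨE
  have hL := hD.lin
  have hτ := hD.dsc.hτ
  have h0 : (0 : ℂ) ∈ ball (0 : ℂ) τ := mem_ball_self hτ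
  have hx0 : x 0 ∈ S.U := hL.NU (hD.dsc.xN 0 h0)
  have hxt : x t ∈ S.U := hL.NU (hD.dsc.xN t ht)
  have hA := CNJ.big S hx0 hζ h2
  refine ⟨hA, ?_⟩
  set p₀ : ℕ := S.per none with hp₀
  set g₀ : ℂ → ℂ := rt (S.co (x 0)) p₀ with hg₀
  set v : ℂ → ℂ × ℂ := fun z => (S.F (x 0))^[p₀] (z, 1) with hv
  have hvd : Differentiable ℂ v := by
    have h1 : Differentiable ℂ (fun z : ℂ => ((S.co (x 0), (z, 1)) : CV d × (ℂ × ℂ))) := by
      fun_prop
    exact (hF_iter_differentiable d p₀).comp h1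
  set E : Set ℂ := E₁ ∪ E₂ with hEdef
  have hEf : E.Finite := hE₁.union hE₂
  set O : Set ℂ := {z : ℂ | 1 / S.r₀ none < ‖z‖ ∧ (v z).2 ≠ 0} with hO
  have hOo : IsOpen O := by
    apply IsOpen.inter
    · exact isOpen_lt continuous_const continuous_norm
    · exact isOpen_ne_fun hvd.continuous.snd continuous_const
  have hζO : ζ ∈ O := ⟨hζ, h2⟩
  have hbig : ∀ z ∈ O, 1 / S.r₀ none < ‖g₀ z‖ := fun z hz =>
    lt_of_lt_of_le hz.1 (CNJ.big S hx0 hz.1 hz.2)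
  have hg₀c : ContinuousOn g₀ O := by
    have h1 : ContinuousOn (fun z => (v z).1 / (v z).2) O :=
      (hvd.continuous.fst.continuousOn).div (hvd.continuous.snd.continuousOn) (fun z hz => hz.2)
    exact h1
  -- the function which has to vanish
  set H : ℂ → ℂ := fun z => cr ((S.F (x t))^[p₀] (Ψ z, 1)) (Ψ (g₀ z), 1) with hH
  have hHc : ContinuousOn H O := by
    have h1 : ContinuousOn Ψ O := hΨ.mono (fun z hz => hz.1)
    have h3 : ContinuousOn (fun z => Ψ (g₀ z)) O := hΨ.comp hg₀c (fun z hz => hbig z hz)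
    have h4 : ContinuousOn (fun z => (S.F (x t))^[p₀] (Ψ z, 1)) O := by
      have h5 : ContinuousOn (fun z : ℂ => ((S.co (x t), (Ψ z, 1)) : CV d × (ℂ × ℂ))) O :=
        continuousOn_const.prodMk (h1.prodMk continuousOn_const)
      exact (hF_iter_continuous d p₀).comp_continuousOn h5
    simp only [hH, cr]
    exact (h4.fst.mul continuousOn_const).sub (h4.snd.mul h3)
  -- nongeneric points are isolated
  have hiso : ∀ e : ℂ, ∀ᶠ z in 𝓝[≠] ζ, (v z).1 - e * (v z).2 ≠ 0 := by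
    intro e
    have hqd : Differentiable ℂ (fun z => (v z).1 - e * (v z).2) :=
      hvd.fst.sub (hvd.snd.const_mul e)
    have hqa : AnalyticOnNhd ℂ (fun z => (v z).1 - e * (v z).2) univ := fun z _ =>
      hqd.analyticAt z
    by_contra hcon
    have hfr : ∃ᶠ z in 𝓝[≠] ζ, (v z).1 - e * (v z).2 = 0 := by
      rw [Filter.not_eventually] at hcon
      exact hcon.mono (fun z hz => by simpa using hz)
    have hzero := hqa.eqOn_zero_of_preconnected_of_frequently_eq_zero isPreconnected_univ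
      (mem_univ ζ) hfr
    -- a large point
    have hr₀ := (S.hr₀ none)
    set R : ℝ := 1 / S.r₀ none + ‖e‖ + 1 with hR
    have hR0 : 0 < R := by positivity
    have hRn : ‖((R : ℝ) : ℂ)‖ = R := by
      rw [Complex.norm_real, Real.norm_eq_abs, abs_of_pos hR0]
    have hz := hzero (mem_univ ((R : ℝ) : ℂ))
    simp only [Pi.zero_apply] at hz
    have hne : v ((R : ℝ) : ℂ) ≠ 0 := (S.nd _ hx0).iter_ne _ (CNJ.one_ne _)
    have hb2 : (v ((R : ℝ) : ℂ)).2 ≠ 0 := by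
      intro h
      rw [h, mul_zero, sub_zero] at hz
      exact hne (Prod.ext hz h)
    have hbb := CNJ.big S hx0 (ζ := ((R : ℝ) : ℂ)) (by
      rw [hRn, hR]; have := norm_nonneg e; linarith) hb2
    have he : rt (S.co (x 0)) (S.per none) ((R : ℝ) : ℂ) = e := by
      change (v ((R : ℝ) : ℂ)).1 / (v ((R : ℝ) : ℂ)).2 = e
      rw [div_eq_iff hb2]
      linear_combination hz
    rw [he, hRn, hR] at hbb
    have : 0 < 1 / S.r₀ none := by positivity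
    linarith
  have hgenz : ∀ᶠ z in 𝓝[≠] ζ, H z = 0 := by
    have h1 : ∀ᶠ z in 𝓝[≠] ζ, z ∈ O := mem_nhdsWithin_of_mem_nhds (hOo.mem_nhds hζO)
    have h3 : ∀ᶠ z in 𝓝[≠] ζ, ∀ e ∈ E, (v z).1 - e * (v z).2 ≠ 0 :=
      (Filter.eventually_all_finite hEf).2 (fun e _ => hiso e)
    have h4 : ∀ᶠ z in 𝓝[≠] ζ, z ∉ E := by
      have h5 : (E \ {ζ})ᶜ ∈ 𝓝 ζ := (hEf.subset diff_subset).isClosed.isOpen_compl.mem_nhds
        (by simp)
      filter_upwards [mem_nhdsWithin_of_mem_nhds h5, self_mem_nhdsWithin] with z hz hzne hzE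
      exact hz ⟨hzE, hzne⟩
    filter_upwards [h1, h3, h4] with z hzO hz3 hz4
    have hgE : g₀ z ∉ E := by
      intro hgE
      apply hz3 _ hgE
      have : g₀ z = (v z).1 / (v z).2 := rfl
      rw [this]
      have := hzO.2
      field_simp
      ring
    have hzW : z ∈ W := hE₁W z hzO.1 (fun h => hz4 (Or.inl h))
    have hgW : g₀ z ∈ W := hE₁W _ (hbig z hzO) (fun h => hgE (Or.inl h))
    have e1 : Ψ z = Φ t z := hE₂Ψ z hzO.1 (fun h => hz4 (Or.inr h))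
    have e2 : Ψ (g₀ z) = Φ t (g₀ z) := hE₂Ψ _ (hbig z hzO) (fun h => hgE (Or.inr h))
    simp only [hH]
    rw [e1, e2]
    exact CNJ.gener hORB hLAM hAU hD hM ht hzW hgW
  have hHζ : H ζ = 0 := by
    have h1 : Tendsto H (𝓝[≠] ζ) (𝓝 (H ζ)) :=
      ((hHc.continuousAt (hOo.mem_nhds hζO)).tendsto).mono_left nhdsWithin_le_nhds
    have h3 : Tendsto H (𝓝[≠] ζ) (𝓝 0) :=
      tendsto_const_nhds.congr' (hgenz.mono (fun z hz => hz.symm))
    exact tendsto_nhds_unique h1 h3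
  have hune : (S.F (x t))^[p₀] (Ψ ζ, 1) ≠ 0 := (S.nd _ hxt).iter_ne _ (CNJ.one_ne _)
  have h5 : ((S.F (x t))^[p₀] (Ψ ζ, 1)).1 = ((S.F (x t))^[p₀] (Ψ ζ, 1)).2 * Ψ (g₀ ζ) := by
    have h6 : cr ((S.F (x t))^[p₀] (Ψ ζ, 1)) (Ψ (g₀ ζ), 1) = 0 := hHζ
    simp only [cr] at h6
    linear_combination h6
  have h6 : ((S.F (x t))^[p₀] (Ψ ζ, 1)).2 ≠ 0 := by
    intro h
    rw [h, zero_mul] at h5
    exact hune (Prod.ext h5 h)
  refine ⟨h6, ?_⟩
  change ((S.F (x t))^[p₀] (Ψ ζ, 1)).1 / ((S.F (x t))^[p₀] (Ψ ζ, 1)).2 = Ψ (g₀ ζ)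
  rw [div_eq_iff h6, h5]
  ring

end Pool.Agent.W757.RC
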