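import Mathlib
import Pool.Agent.W757.RC.St
import Pool.Agent.H790R3.RB.Basic

set_option autoImplicit false

open Topology Filter Metric Set MeasureTheory

open Pool.Agent.H790R3.RB

namespace Pool.Agent.W757.RC

theorem ER (hWR : StWR) : StER := by
  intro d n s S y hEr ζ
  have hd := S.hd
  obtain ⟨_, ⟨W, hWdeg, hWev, hWc⟩, _⟩ := hWR d (S.co (yx y)) hd
  set c := wr (S.co (yx y)) (1, 0) with hc
  set Q : Polynomial ℂ := ∏ i : Fin (2 * d - 2), (Polynomial.X - Polynomial.C (yc y i)) with hQ
  have hQm : Q.Monic := Polynomial.monic_prod_of_monic _ _ fun i _ => Polynomial.monic_X_sub_C _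
  have hQd : Q.natDegree = 2 * d - 2 := by
    rw [hQ, Polynomial.natDegree_prod_of_monic _ _ fun i _ => Polynomial.monic_X_sub_C _]
    simp
  have hQev : ∀ z : ℂ, Q.eval z = ∏ i : Fin (2 * d - 2), (z - yc y i) := by
    intro z
    rw [hQ, Polynomial.eval_prod]
    simp
  set D : Polynomial ℂ := W - Polynomial.C c * Q with hD
  have hDdeg : D.natDegree ≤ 2 * d - 2 := by
    refine (Polynomial.natDegree_sub_le _ _).trans (max_le hWdeg ?_)
    exact (Polynomial.natDegree_C_mul_le _ _).trans hQd.le
  have hDc : D.coeff (2 * d - 2) = 0 := by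
    rw [hD, Polynomial.coeff_sub, Polynomial.coeff_C_mul, hWc]
    have : Q.coeff (2 * d - 2) = 1 := by rw [← hQd]; exact hQm.coeff_natDegree
    rw [this, mul_one, sub_self]
  have hDev : ∀ z : ℂ, D.eval z = wr (S.co (yx y)) (z, 1) - c * ∏ i : Fin (2 * d - 2), (z - yc y i) := by
    intro z
    rw [hD, Polynomial.eval_sub, Polynomial.eval_mul, Polynomial.eval_C, hWev, hQev]
  have hlt : D.natDegree < Fintype.card (Fin (2 * d - 2)) := by
    rw [Fintype.card_fin]
    refine lt_of_le_of_ne hDdeg fun h => ?_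
    have h1 : D.leadingCoeff = 0 := by rw [Polynomial.leadingCoeff, h, hDc]
    rw [Polynomial.leadingCoeff_eq_zero] at h1
    rw [h1, Polynomial.natDegree_zero] at h
    omega
  have hD0 : D = 0 := by
    refine Polynomial.eq_zero_of_natDegree_lt_card_of_eval_eq_zero D
      (f := fun j : Fin (2 * d - 2) => ((j : ℕ) : ℂ)) ?_ ?_ hlt
    · intro i j hij
      exact Fin.ext (Nat.cast_injective hij)
    · intro j
      rw [hDev]
      exact hEr j
  have := hDev ζ
  rw [hD0, Polynomial.eval_zero] at this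
  exact (sub_eq_zero.mp this.symm)

end Pool.Agent.W757.RC
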