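import Mathlib
import Pool.Agent.W757.RC.St
import Pool.Agent.H790R3.RB.Basic

set_option autoImplicit false

open Topology Filter Metric Set MeasureTheory

open Pool.Agent.H790R3.RB

namespace Pool.Agent.W757.RC

namespace EXC

/-- iterated contraction -/
theorem iter_contr {d n s : ℕ} (S : Sys d n s) (x : Fin n → ℂ) (hx : x ∈ S.U) (k : Option (Fin s))
    (q : ℕ) : ∀ z : ℂ, ‖z‖ < (S.r₀ k) → ∃ a z' : ℂ, a ≠ 0 ∧ ‖z'‖ < (S.r₀ k) ∧
      (S.F x)^[S.per k * q] (S.cht k x z) = a • S.cht k x z' := by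
  induction q with
  | zero => intro z hz; exact ⟨1, z, one_ne_zero, hz, by simp⟩
  | succ q ih =>
    intro z hz
    obtain ⟨a, z', ha, hz', h⟩ := S.contr x hx k z hz
    have hz'' : ‖z'‖ < (S.r₀ k) := by
      calc ‖z'‖ ≤ S.θ * ‖z‖ := hz'
        _ ≤ 1 * ‖z‖ := mul_le_mul_of_nonneg_right S.hθ.le (norm_nonneg _)
        _ < (S.r₀ k) := by rw [one_mul]; exact hz
    obtain ⟨a', z'', ha', hz3, h'⟩ := ih z' hz''
    refine ⟨a ^ (d ^ (S.per k * q)) * a', z'', mul_ne_zero (pow_ne_zero _ ha) ha', hz3, ?_⟩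
    rw [Nat.mul_succ, Function.iterate_add_apply]
    have h1 : (S.F x)^[S.per k] (S.cht k x z) = a • S.cht k x z' := h
    rw [h1]
    have h2 := hF_iter_smul (S.co x) (S.per k * q) a (S.cht k x z')
    have h3 : (S.F x)^[S.per k * q] (a • S.cht k x z') =
        a ^ (d ^ (S.per k * q)) • (S.F x)^[S.per k * q] (S.cht k x z') := h2
    rw [h3, h', smul_smul]

end EXC

theorem EXC (hWR : StWR) (hLAM : StLAM) (hER : StER) (hORB : StORB) : StEXC := by
  intro d n s l S KK r N ω e A ks ls L ρ₂ K y₀ y Fh hKoe hLin hK hyN hleaf hyk hnA c hc hwr m k a w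
    hw hcr
  obtain ⟨-, -, hlam, -, hEr, hykK, hcrA⟩ := hleaf
  set x := yx y with hx
  have hxU : x ∈ S.U := hLin.NU hyN
  have hnd : ND (S.co x) := S.nd x hxU
  have hd : 2 ≤ d := S.hd
  obtain ⟨-, -, -, hL4, -, -⟩ := hLAM d n s S
  have hwr0 : wr (S.co x) (1, 0) ≠ 0 := hL4 x hxU (hLin.lam0 x hyN none)
  obtain ⟨hW1, -, -⟩ := hWR d (S.co x) hd
  have hc2 : c.2 ≠ 0 := by
    intro h2
    have hc1 : c.1 ≠ 0 := fun h1 => hc (Prod.ext h1 h2)
    have h3 : c = c.1 • ((1 : ℂ), (0 : ℂ)) := by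
      apply Prod.ext
      · simp
      · simp [h2]
    rw [h3, hW1] at hwr
    exact mul_ne_zero (pow_ne_zero _ hc1) hwr0 hwr
  set ζ : ℂ := c.1 / c.2 with hζ
  have hcζ : c = c.2 • (ζ, (1 : ℂ)) := by
    apply Prod.ext
    · simp only [Prod.smul_fst, smul_eq_mul, hζ]; field_simp
    · simp
  have hwrζ : wr (S.co x) (ζ, 1) = 0 := by
    have h4 := hW1 c.2 (ζ, 1)
    rw [← hcζ, hwr] at h4
    exact (mul_eq_zero.mp h4.symm).resolve_left (pow_ne_zero _ hc2)
  have h5 := hER d n s S y hEr ζ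
  rw [hwrζ] at h5
  have h6 := (mul_eq_zero.mp h5.symm).resolve_left hwr0
  obtain ⟨i, -, hi⟩ := Finset.prod_eq_zero_iff.mp h6
  have hζi : ζ = yc y i := sub_eq_zero.mp hi
  have hζ0 : ((ζ, (1 : ℂ)) : ℂ × ℂ) ≠ 0 := by
    intro h; have := congrArg Prod.snd h; simp at this
  -- the critical point in affine form
  have h7 : cr ((S.F x)^[m] (ζ, 1)) (S.pt ω k a x (yk y k * w)) = 0 := by
    rw [hcζ] at hcr
    have h8 : (S.F x)^[m] (c.2 • (ζ, (1 : ℂ))) = c.2 ^ (d ^ m) • (S.F x)^[m] (ζ, 1) :=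
      hF_iter_smul (S.co x) m c.2 (ζ, 1)
    rw [h8, cr_smul_left] at hcr
    exact (mul_eq_zero.mp hcr).resolve_left (pow_ne_zero _ hc2)
  have hFne : ∀ M : ℕ, (S.F x)^[M] (ζ, 1) ≠ 0 := fun M => hnd.iter_ne M hζ0
  have hptne : ∀ (k' : Option (Fin s)) (b : ℕ) (w' : ℂ), S.pt ω k' b x w' ≠ 0 := by
    intro k' b w'
    exact hnd.iter_ne b (ch_ne_zero S.b k' x _)
  by_cases hiA : i ∈ A
  · -- attracted critical point
    set k' := ks i with hk'
    set w1 : ℂ := yk y k' * (S.lam k' (yx y₀) ^ L * Fh i) with hw1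
    have hw1r : ‖w1‖ < r := by
      rw [hw1, norm_mul]
      exact lt_of_le_of_lt (mul_le_mul_of_nonneg_right (hykK k') (norm_nonneg _)) (hK i hiA)
    have h9 := hcrA i hiA
    have h10 : cr ((S.F x)^[ls i + S.per k' * L] (ζ, 1)) (S.pt ω k' 0 x w1) = 0 := by
      rw [hζi]; exact h9
    set M := ls i + S.per k' * L with hM
    have h11 : cr ((S.F x)^[m] ((S.F x)^[M] (ζ, 1))) ((S.F x)^[m] (S.pt ω k' 0 x w1)) = 0 :=
      cr_iter (S.co x) m (hFne M) (hptne _ _ _) h10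
    have h12 : cr ((S.F x)^[M] ((S.F x)^[m] (ζ, 1)))
        ((S.F x)^[M] (S.pt ω k a x (yk y k * w))) = 0 :=
      cr_iter (S.co x) M (hFne m) (hptne _ _ _) h7
    have h13 : (S.F x)^[m] (S.pt ω k' 0 x w1) = S.pt ω k' m x w1 := rfl
    have h14 : (S.F x)^[M] (S.pt ω k a x (yk y k * w)) = S.pt ω k (M + a) x (yk y k * w) := by
      unfold Sys.pt
      rw [← Function.iterate_add_apply]
    rw [h13, ← Function.iterate_add_apply] at h11
    rw [h14, ← Function.iterate_add_apply, Nat.add_comm M m] at h12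
    have h15 : cr (S.pt ω k' m x w1) (S.pt ω k (M + a) x (yk y k * w)) = 0 := by
      apply cr_trans (hFne (m + M)) _ h12
      rw [cr_comm, h11, neg_zero]
    obtain ⟨-, -, hO, -⟩ := hORB d n s S KK r N ω hKoe hLin x hyN k' k w1 (yk y k * w) hw1r hw m
      (M + a)
    -- need the third part with both indices
    obtain ⟨hkk, -, h16⟩ := hO h15
    refine ⟨i, hiA, ?_, ?_⟩
    · rw [← hk']; exact hkk
    · have hper : 0 < S.per k' := S.hper k'
      have h17 : (M + a) / S.per k' = (a + ls i) / S.per k' + L := by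
        rw [hM, show ls i + S.per k' * L + a = (a + ls i) + S.per k' * L by ring,
          Nat.add_mul_div_left _ _ hper]
      rw [h17, hw1, ← hlam k'] at h16
      rw [← hkk] at h16 ⊢
      have hl0 : S.lam k' x ≠ 0 := hLin.lam0 x hyN k'
      have hyk' : yk y k' ≠ 0 := hyk k'
      have h18 : (yk y k' * S.lam k' x ^ L) * (S.lam k' x ^ (m / S.per k') * Fh i) =
          (yk y k' * S.lam k' x ^ L) * (S.lam k' x ^ ((a + ls i) / S.per k') * w) := by
        rw [pow_add] at h16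
        linear_combination h16
      exact mul_left_cancel₀ (mul_ne_zero hyk' (pow_ne_zero _ hl0)) h18
  · exfalso
    set j := S.per k * (a + 1) - a with hj
    have hper : 1 ≤ S.per k := S.hper k
    have hja : j + a = S.per k * (a + 1) := by
      have : a ≤ S.per k * (a + 1) := by nlinarith
      omega
    have hωr : ‖ω k (x, yk y k * w)‖ < (S.r₀ k) := (hLin.ωr k x hyN _ hw).1
    obtain ⟨b, z', hb, hz', h8⟩ := EXC.iter_contr S x hxU k (a + 1) _ hωr
    have h9 : cr ((S.F x)^[j] ((S.F x)^[m] (ζ, 1)))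
        ((S.F x)^[j] (S.pt ω k a x (yk y k * w))) = 0 :=
      cr_iter (S.co x) j (hFne m) (hptne _ _ _) h7
    have h10 : (S.F x)^[j] (S.pt ω k a x (yk y k * w)) = b • S.cht k x z' := by
      unfold Sys.pt
      rw [← Function.iterate_add_apply, hja, h8]
    rw [h10, ← Function.iterate_add_apply, cr_smul_right] at h9
    have h11 := (mul_eq_zero.mp h9).resolve_left hb
    obtain ⟨a', ha', h12⟩ := (cr_eq_zero_iff (hFne (j + m)) (ch_ne_zero S.b k x z')).mp h11
    apply hnA i hiA k (j + m)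
    refine ⟨a', z', ha', hz', ?_⟩
    rw [← hζi]
    exact h12

end Pool.Agent.W757.RC
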