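import Mathlib
import Pool.Agent.W757.RC.St
import Pool.Agent.Helper540.Holo

/-! Task JT (project RB of helper790): a holomorphic function on the leaf with the zeros of the
minor (helper819). -/

set_option autoImplicit false

open Topology Filter Metric Set MeasureTheory

open Pool.Agent.H790R3.RB

namespace Pool.Agent.W757.RC

namespace JT

variable {d n s l : ℕ}

/-- positions of the attracted critical points -/
noncomputable def KP (S : Sys d n s) (KK : Option (Fin s) → (Fin n → ℂ) × (ℂ × ℂ) → ℂ)
    (ks : Fin (2 * d - 2) → Option (Fin s)) (ls : Fin (2 * d - 2) → ℕ) (i : Fin (2 * d - 2))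
    (y : Ix d n s → ℂ) : ℂ := KK (ks i) (yx y, (S.F (yx y))^[ls i] (yc y i, 1))

/-- entries of the rows -/
noncomputable def ent (S : Sys d n s) (KK : Option (Fin s) → (Fin n → ℂ) × (ℂ × ℂ) → ℂ)
    (e : Fin l → (Fin n → ℂ) → ℂ) (A : Finset (Fin (2 * d - 2)))
    (ks : Fin (2 * d - 2) → Option (Fin s)) (ls : Fin (2 * d - 2) → ℕ)
    (a : Sys.Rw l d s A) (y v : Ix d n s → ℂ) : ℂ :=
  match a with
  | Sum.inl i => fderiv ℂ (fun y : Ix d n s → ℂ => e i (yx y)) y v
  | Sum.inr (Sum.inl k) => fderiv ℂ (fun y : Ix d n s → ℂ => S.lam k (yx y)) y v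
  | Sum.inr (Sum.inr (Sum.inl _)) => fderiv ℂ (fun y : Ix d n s → ℂ => S.bet (yx y)) y v
  | Sum.inr (Sum.inr (Sum.inr i)) =>
      yk y (ks i) * fderiv ℂ (KP S KK ks ls i) y v -
        KP S KK ks ls i y * fderiv ℂ (fun y : Ix d n s → ℂ => yk y (ks i)) y v

/-- factors of the rows -/
noncomputable def fac (A : Finset (Fin (2 * d - 2)))
    (ks : Fin (2 * d - 2) → Option (Fin s)) (a : Sys.Rw l d s A) (y : Ix d n s → ℂ) : ℂ :=
  match a with
  | Sum.inl _ => 1
  | Sum.inr (Sum.inl _) => 1
  | Sum.inr (Sum.inr (Sum.inl _)) => 1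
  | Sum.inr (Sum.inr (Sum.inr i)) => yk y (ks i) ^ 2

theorem diff_yx : Differentiable ℂ (fun y : Ix d n s → ℂ => yx y) := by
  unfold yx
  fun_prop

theorem diff_yk (k : Option (Fin s)) : Differentiable ℂ (fun y : Ix d n s → ℂ => yk y k) := by
  cases k with
  | none =>
    change Differentiable ℂ (fun _ : Ix d n s → ℂ => (1 : ℂ))
    fun_prop
  | some k =>
    change Differentiable ℂ (fun y : Ix d n s → ℂ => y (Sum.inr (Sum.inr k)))
    fun_prop

theorem quot {E : Type} [NormedAddCommGroup E] [NormedSpace ℂ E] {f g : E → ℂ} {y : E}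
    (hf : DifferentiableAt ℂ f y) (hg : DifferentiableAt ℂ g y) (h0 : g y ≠ 0) (v : E) :
    g y * fderiv ℂ f y v - f y * fderiv ℂ g y v = g y ^ 2 * fderiv ℂ (fun z => f z / g z) y v := by
  have h1 : HasFDerivAt (fun z => (g z)⁻¹) (-(g y ^ 2)⁻¹ • fderiv ℂ g y) y := by
    have h2 := (hasDerivAt_inv h0).comp_hasFDerivAt y hg.hasFDerivAt
    exact h2
  have h2 : HasFDerivAt (fun z => f z / g z)
      (f y • (-(g y ^ 2)⁻¹ • fderiv ℂ g y) + (g y)⁻¹ • fderiv ℂ f y) y := by
    have h3 := hf.hasFDerivAt.mul h1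
    refine h3.congr_of_eventuallyEq ?_
    exact Eventually.of_forall fun z => div_eq_mul_inv _ _
  rw [h2.fderiv]
  simp only [ContinuousLinearMap.add_apply, ContinuousLinearMap.smul_apply, smul_eq_mul]
  field_simp
  ring

theorem prod_diff {E : Type} [NormedAddCommGroup E] [NormedSpace ℂ E] {O : Set E} {ι : Type}
    [DecidableEq ι] (t : Finset ι) (f : ι → E → ℂ) (h : ∀ i ∈ t, DifferentiableOn ℂ (f i) O) :
    DifferentiableOn ℂ (fun y => ∏ i ∈ t, f i y) O := by
  induction t using Finset.induction_on with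
  | empty => simp
  | insert a t ha ih =>
    have h1 := h a (Finset.mem_insert_self _ _)
    have h2 := ih fun i hi => h i (Finset.mem_insert_of_mem hi)
    refine (h1.mul h2).congr fun y _ => ?_
    rw [Finset.prod_insert ha]
    rfl

theorem det_diff {E : Type} [NormedAddCommGroup E] [NormedSpace ℂ E] {O : Set E} {ι : Type}
    [DecidableEq ι] [Fintype ι] (M : E → Matrix ι ι ℂ)
    (h : ∀ i j, DifferentiableOn ℂ (fun y => M y i j) O) :
    DifferentiableOn ℂ (fun y => (M y).det) O := by
  have : (fun y => (M y).det) =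
      fun y => ∑ σ : Equiv.Perm ι, ((Equiv.Perm.sign σ : ℤ) : ℂ) * ∏ i, M y (σ i) i := by
    funext y
    rw [Matrix.det_apply']
  rw [this]
  refine DifferentiableOn.fun_sum fun σ _ => ?_
  refine DifferentiableOn.const_mul ?_ _
  exact prod_diff _ _ fun i _ => h _ _

end JT

open JT in
theorem JT (hLAM : StLAM) (hADO : StADO) : StJT := by
  intro d n s l S KK e A ks ls R sel col hK he
  obtain ⟨O, hO, hOe, hEr, hKP, -⟩ := hADO d n s l S KK e A ks ls hK he
  obtain ⟨hlam, hbet, -⟩ := hLAM d n s S
  have hOU : ∀ y ∈ O, yx y ∈ S.U := by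
    intro y hy
    rw [hOe] at hy
    exact hy.1
  have hcomp : ∀ f : (Fin n → ℂ) → ℂ, DifferentiableOn ℂ f S.U →
      DifferentiableOn ℂ (fun y : Ix d n s → ℂ => f (yx y)) O := fun f hf =>
    hf.comp diff_yx.differentiableOn hOU
  have hent : ∀ (a : Sys.Rw l d s A) (v : Ix d n s → ℂ),
      DifferentiableOn ℂ (fun y => ent S KK e A ks ls a y v) O := by
    intro a v
    rcases a with i | k | u | i
    · exact Helper540.differentiableOn_fderiv_apply hO (hcomp _ (he i)) v
    · exact Helper540.differentiableOn_fderiv_apply hO (hcomp _ (hlam k)) v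
    · exact Helper540.differentiableOn_fderiv_apply hO (hcomp _ hbet) v
    · have h1 : DifferentiableOn ℂ (KP S KK ks ls i) O := hKP i i.2
      have h2 : DifferentiableOn ℂ (fun y : Ix d n s → ℂ => yk y (ks i)) O :=
        (diff_yk (ks i)).differentiableOn
      exact (h2.mul (Helper540.differentiableOn_fderiv_apply hO h1 v)).sub
        (h1.mul (Helper540.differentiableOn_fderiv_apply hO h2 v))
  refine ⟨fun y => (Matrix.of fun (a c : Fin (2 * d - 2) ⊕ Fin R) =>
    match a with
    | Sum.inl j => fderiv ℂ (S.Er j) y (Pi.single (col c) 1)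
    | Sum.inr i => ent S KK e A ks ls (sel i) y (Pi.single (col c) 1)).det, ?_, ?_⟩
  · rw [← hOe]
    apply det_diff
    intro a c
    rcases a with j | i
    · exact Helper540.differentiableOn_fderiv_apply hO (hEr j) _
    · exact hent (sel i) _
  · intro y h1 h2 h3 h4
    have hyO : y ∈ O := by
      rw [hOe]
      exact ⟨h1, h2, h3⟩
    have hmat : (Matrix.of fun (a c : Fin (2 * d - 2) ⊕ Fin R) =>
        match a with
        | Sum.inl j => fderiv ℂ (S.Er j) y (Pi.single (col c) 1)
        | Sum.inr i => ent S KK e A ks ls (sel i) y (Pi.single (col c) 1)) =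
        Matrix.of fun (a c : Fin (2 * d - 2) ⊕ Fin R) =>
          (Sum.elim (fun _ => 1) (fun i => fac A ks (sel i) y) a : ℂ) *
            S.Mx KK e A ks ls sel col y a c := by
      ext a c
      rcases a with j | i
      · change fderiv ℂ (S.Er j) y (Pi.single (col c) 1) =
          1 * fderiv ℂ (S.Er j) y (Pi.single (col c) 1)
        rw [one_mul]
      · change ent S KK e A ks ls (sel i) y (Pi.single (col c) 1) =
          fac A ks (sel i) y * fderiv ℂ (S.Gr KK e A ks ls (sel i)) y (Pi.single (col c) 1)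
        rcases sel i with i' | k | u | i'
        · exact (one_mul _).symm
        · exact (one_mul _).symm
        · exact (one_mul _).symm
        · exact quot ((hKP i' i'.2).differentiableAt (hO.mem_nhds hyO))
            (diff_yk (ks i')).differentiableAt (h4 (ks i')) _
    dsimp only
    rw [hmat, Matrix.det_mul_column]
    have hne : (∏ a : Fin (2 * d - 2) ⊕ Fin R,
        (Sum.elim (fun _ => 1) (fun i => fac A ks (sel i) y) a : ℂ)) ≠ 0 := by
      rw [Finset.prod_ne_zero_iff]
      intro a _
      rcases a with j | i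
      · exact one_ne_zero
      · change fac A ks (sel i) y ≠ 0
        rcases sel i with i' | k | u | i'
        · exact one_ne_zero
        · exact one_ne_zero
        · exact one_ne_zero
        · exact pow_ne_zero 2 (h4 (ks i'))
    rw [mul_eq_zero]
    exact ⟨fun h => h.resolve_left hne, fun h => Or.inr h⟩

end Pool.Agent.W757.RC
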