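import Mathlib
import Pool.Agent.W757.RC.St
import Pool.Agent.H790R3.RB.Basic

/-! LIN: existence of the local inverses of the Koenigs maps (helper152) -/

set_option autoImplicit false

open Topology Filter Metric Set MeasureTheory

open Pool.Agent.H790R3.RB

namespace Pool.Agent.W757.RC

namespace LIN

theorem exists_min {s : ℕ} (f : Option (Fin s) → ℝ) (h : ∀ k, 0 < f k) :
    ∃ m : ℝ, 0 < m ∧ ∀ k, m ≤ f k := by
  obtain ⟨k0, hk0⟩ := Finite.exists_min f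
  exact ⟨f k0, h k0, hk0⟩

/-- uniform smallness near a compact set -/
theorem small {V : Type} [TopologicalSpace V] (N K : Set V) (ρ ε : ℝ) (f : V × ℂ → ℂ)
    (hN : IsOpen N) (hK : IsCompact K) (hKN : K ⊆ N) (hρ : 0 < ρ) (hε : 0 < ε)
    (hf : ContinuousOn f (N ×ˢ ball (0 : ℂ) ρ)) (h0 : ∀ x ∈ N, f (x, 0) = 0) :
    ∃ (N' : Set V) (δ : ℝ), IsOpen N' ∧ K ⊆ N' ∧ N' ⊆ N ∧ 0 < δ ∧ δ ≤ ρ ∧
      ∀ x ∈ N', ∀ w : ℂ, ‖w‖ < δ → ‖f (x, w)‖ < ε := by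
  have hO : IsOpen (N ×ˢ ball (0 : ℂ) ρ) := hN.prod isOpen_ball
  have hW : IsOpen ((N ×ˢ ball (0 : ℂ) ρ) ∩ f ⁻¹' (ball 0 ε)) :=
    hf.isOpen_inter_preimage hO isOpen_ball
  have hsub : K ×ˢ ({0} : Set ℂ) ⊆ (N ×ˢ ball (0 : ℂ) ρ) ∩ f ⁻¹' (ball 0 ε) := by
    rintro ⟨x, w⟩ ⟨hx, hw⟩
    have hw' : w = 0 := hw
    subst hw'
    refine ⟨⟨hKN hx, by simpa using hρ⟩, ?_⟩
    rw [mem_preimage, h0 x (hKN hx)]
    simpa using hε
  obtain ⟨u, v, hu, hv, hKu, h0v, huv⟩ := generalized_tube_lemma hK isCompact_singleton hW hsub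
  obtain ⟨δ, hδ, hδv⟩ := Metric.isOpen_iff.1 hv 0 (h0v rfl)
  refine ⟨u ∩ N, min δ ρ, hu.inter hN, fun x hx => ⟨hKu hx, hKN hx⟩, inter_subset_right,
    lt_min hδ hρ, min_le_right _ _, ?_⟩
  intro x hx w hw
  have h1 : (x, w) ∈ u ×ˢ v := ⟨hx.1, hδv (by simpa using hw.trans_le (min_le_left _ _))⟩
  have h2 := (huv h1).2
  simpa using h2

variable {d n s : ℕ} (S : Sys d n s)

theorem mem_dom (k : Option (Fin s)) {x : Fin n → ℂ} (hx : x ∈ S.U) (hl : S.lam k x ≠ 0) {z : ℂ}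
    (hz : ‖z‖ < (S.r₀ k)) : (x, S.cht k x z) ∈ S.Dom k := by
  refine ⟨hx, hl, 0, 1, z, one_ne_zero, hz, ?_⟩
  simp

theorem cht_diff (k : Option (Fin s)) :
    DifferentiableOn ℂ (fun q : (Fin n → ℂ) × ℂ => (q.1, S.cht k q.1 q.2)) (S.U ×ˢ univ) := by
  refine differentiableOn_fst.prodMk ?_
  cases k with
  | none =>
    show DifferentiableOn ℂ (fun q : (Fin n → ℂ) × ℂ => ((1 : ℂ), q.2)) _
    exact (differentiableOn_const _).prodMk differentiableOn_snd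
  | some k =>
    show DifferentiableOn ℂ (fun q : (Fin n → ℂ) × ℂ => (S.b k q.1 + q.2, (1 : ℂ))) _
    refine DifferentiableOn.prodMk ?_ (differentiableOn_const _)
    refine DifferentiableOn.add ?_ differentiableOn_snd
    exact (S.hb k).comp differentiableOn_fst (fun q hq => hq.1)

end LIN

open LIN in
theorem LIN (hLAM : StLAM) (hINV : StINV) : StLIN := by
  intro d n s S KK hKK K hK hKB
  obtain ⟨hlam, -, hlθ, -, -, hhk⟩ := hLAM d n s S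
  set B : Set (Fin n → ℂ) := {x | x ∈ S.U ∧ ∀ k, S.lam k x ≠ 0} with hB
  have hUo : IsOpen S.U := S.hU
  have hBo : IsOpen B := by
    have e : B = S.U ∩ ⋂ k, (S.U ∩ (S.lam k) ⁻¹' {0}ᶜ) := by
      ext x
      simp only [hB, mem_setOf_eq, mem_inter_iff, mem_iInter, mem_preimage, mem_compl_iff,
        mem_singleton_iff]
      constructor
      · rintro ⟨h1, h2⟩
        exact ⟨h1, fun k => ⟨h1, h2 k⟩⟩
      · rintro ⟨h1, h2⟩
        exact ⟨h1, fun k => (h2 k).2⟩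
    rw [e]
    exact hUo.inter (isOpen_iInter_of_finite (fun k =>
      (hlam k).continuousOn.isOpen_inter_preimage hUo isOpen_compl_singleton))
  have hLd : ∀ k, DifferentiableOn ℂ (fun p : (Fin n → ℂ) × ℂ => KK k (p.1, S.cht k p.1 p.2))
      (B ×ˢ ball 0 (S.r₀ k)) := by
    intro k
    refine (hKK.dif k).comp ((cht_diff S k).mono ?_) ?_
    · exact fun p hp => ⟨hp.1.1, mem_univ _⟩
    · exact fun p hp => mem_dom S k hp.1.1 (hp.1.2 k) (by simpa using hp.2)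
  have hinv := fun k => hINV (Fin n → ℂ) B K (S.r₀ k) (fun x z => KK k (x, S.cht k x z)) hBo (S.hr₀ k) hK
    hKB (hLd k) (fun x hx => ⟨hKK.zer k x hx.1 (hx.2 k), hKK.der k x hx.1 (hx.2 k)⟩)
  choose N1 r1 r1' r1'' ω hN1o hKN1 hN1B hr1 hr1'' hle1 hle2 hωd hω using hinv
  obtain ⟨ra, hra, hram⟩ := exists_min r1' (fun k => (hr1'' k).trans_le (hle1 k))
  obtain ⟨rb, hrb, hrbm⟩ := exists_min S.r₀ S.hr₀
  obtain ⟨r', hr'def⟩ : ∃ r' : ℝ, r' = min ra rb := ⟨_, rfl⟩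
  have hr' : 0 < r' := by rw [hr'def]; exact lt_min hra hrb
  have hr'm : ∀ k, r' ≤ r1' k := fun k => by rw [hr'def]; exact (min_le_left _ _).trans (hram k)
  have hsm := fun k => small (N1 k) K (r1 k) r' (fun p => ω k p.1 p.2) (hN1o k) hK (hKN1 k)
    (hr1 k) hr' (hωd k).continuousOn (fun x hx => (hω k x hx).1)
  choose N2 r2 hN2o hKN2 hN2N1 hr2 hr21 hω2 using hsm
  obtain ⟨r, hr, hrm⟩ := exists_min r2 hr2
  have hsm' := fun k => small B K (S.r₀ k) r (fun p => KK k (p.1, S.cht k p.1 p.2)) hBo hK hKB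
    (S.hr₀ k) hr (hLd k).continuousOn (fun x hx => hKK.zer k x hx.1 (hx.2 k))
  choose N3 r3 hN3o hKN3 hN3B hr3 hr3' hL3 using hsm'
  obtain ⟨r'', hr'', hr''m⟩ := exists_min r3 hr3
  have hN2 : ∀ x ∈ ⋂ k, (N2 k ∩ N3 k), ∀ k, x ∈ N2 k := fun x hx k => (mem_iInter.1 hx k).1
  have hN3 : ∀ x ∈ ⋂ k, (N2 k ∩ N3 k), ∀ k, x ∈ N3 k := fun x hx k => (mem_iInter.1 hx k).2
  have hNB : ∀ x ∈ ⋂ k, (N2 k ∩ N3 k), x ∈ B := fun x hx => hN3B none (hN3 x hx none)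
  have hr'0 : ∀ k, r' ≤ (S.r₀ k) := fun k => by rw [hr'def]; exact (min_le_right _ _).trans (hrbm k)
  refine ⟨⋂ k, (N2 k ∩ N3 k), r, fun k p => ω k p.1 p.2,
    fun x hx => mem_iInter.2 (fun k => ⟨hKN2 k hx, hKN3 k hx⟩), ?_⟩
  have hP1 : ∀ k, ∀ x ∈ ⋂ k, (N2 k ∩ N3 k), ∀ w : ℂ, ‖w‖ < r → ‖ω k x w‖ < r' ∧
      KK k (x, S.cht k x (ω k x w)) = w := by
    intro k x hx w hw
    refine ⟨hω2 k x (hN2 x hx k) w (hw.trans_le (hrm k)), ?_⟩
    exact ((hω k x (hN2N1 k (hN2 x hx k))).2.1 w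
      (hw.trans_le ((hrm k).trans (hr21 k)))).2
  have hP2 : ∀ k, ∀ x ∈ ⋂ k, (N2 k ∩ N3 k), ∀ z : ℂ, ‖z‖ < r' →
      ‖KK k (x, S.cht k x z)‖ < r → ω k x (KK k (x, S.cht k x z)) = z := by
    intro k x hx z hz hz'
    exact (hω k x (hN2N1 k (hN2 x hx k))).2.2.1 z (hz.trans_le (hr'm k))
      (hz'.trans_le ((hrm k).trans (hr21 k)))
  refine ⟨hr, isOpen_iInter_of_finite (fun k => (hN2o k).inter (hN3o k)),
    fun x hx => (hNB x hx).1, fun x hx k => (hNB x hx).2 k, ?_, ?_, ?_, ?_, ?_⟩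
  · intro k
    refine (hωd k).mono ?_
    rintro ⟨x, w⟩ ⟨hx, hw⟩
    exact ⟨hN2N1 k (hN2 x hx k), ball_subset_ball ((hrm k).trans (hr21 k)) hw⟩
  · intro k x hx
    exact (hω k x (hN2N1 k (hN2 x hx k))).1
  · intro k x hx w hw
    exact ⟨(hP1 k x hx w hw).1.trans_le (hr'0 k), (hP1 k x hx w hw).2⟩
  · intro k x hx w hw
    obtain ⟨p1, p2⟩ := hP1 k x hx w hw
    have hxB := hNB x hx
    obtain ⟨h1, a, ha, h2⟩ := hhk k x hxB.1 (ω k x w) (p1.trans_le (hr'0 k))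
    have h3 : ‖S.hk k x (ω k x w)‖ < r' := by
      refine lt_of_le_of_lt (h1.trans ?_) p1
      exact mul_le_of_le_one_left (norm_nonneg _) S.hθ.le
    have h4 : KK k (x, S.cht k x (S.hk k x (ω k x w))) = S.lam k x * w := by
      have e1 := hKK.hom k x (S.cht k x (S.hk k x (ω k x w)))
        (mem_dom S k hxB.1 (hxB.2 k) (h3.trans_le (hr'0 k))) a ha
      have e2 := hKK.fe k x (S.cht k x (ω k x w))
        (mem_dom S k hxB.1 (hxB.2 k) (p1.trans_le (hr'0 k)))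
      rw [← e1, ← h2, e2, p2]
    have h5 : ‖S.lam k x * w‖ < r := by
      rw [norm_mul]
      refine lt_of_le_of_lt (mul_le_of_le_one_left (norm_nonneg _) ?_) hw
      exact (hlθ k x hxB.1).trans S.hθ.le
    have h6 := hP2 k x hx _ h3 (by rw [h4]; exact h5)
    rw [h4] at h6
    refine ⟨a, ha, ?_⟩
    show (S.F x)^[S.per k] (S.cht k x (ω k x w)) = a • S.cht k x (ω k x (S.lam k x * w))
    rw [h6]
    exact h2
  · refine ⟨r', min r' r'', lt_min hr' hr'', min_le_left _ _, hr'0, ?_⟩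
    intro k x hx
    refine ⟨fun w hw => (hP1 k x hx w hw).1, hP2 k x hx, ?_⟩
    intro z hz
    exact hL3 k x (hN3 x hx k) z (hz.trans_le ((min_le_right _ _).trans (hr''m k)))

end Pool.Agent.W757.RC
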