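import Mathlib
import Pool.Agent.W757.RC.St
import Pool.Agent.H790R3.RB.Basic

/-! Project RB, task OPN: the leaf is invariant under small discs. -/

set_option autoImplicit false

open Topology Filter Metric Set MeasureTheory

open Pool.Agent.H790R3.RB

namespace Pool.Agent.W757.RC

namespace OPN

/-- the denominator of the local coordinate -/
def den {s : ℕ} (k : Option (Fin s)) (p : ℂ × ℂ) : ℂ :=
  match k with
  | none => p.1
  | some _ => p.2

theorem smul_loc {s : ℕ} {X : Type} (b : Fin s → X → ℂ) (k : Option (Fin s)) (x : X) (p : ℂ × ℂ)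
    (h : den k p ≠ 0) : p = den k p • ch b k x (loc b k x p) := by
  cases k with
  | none =>
    simp only [den] at h
    ext
    · simp [den, ch]
    · simp only [den, ch, loc, Prod.smul_snd, smul_eq_mul]; field_simp
  | some k =>
    simp only [den] at h
    ext
    · simp only [den, ch, loc, Prod.smul_fst, smul_eq_mul]; field_simp; ring
    · simp [den, ch]

theorem den_smul_ch {s : ℕ} {X : Type} (b : Fin s → X → ℂ) (k : Option (Fin s)) (x : X) (a z : ℂ) :
    den k (a • ch b k x z) = a := by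
  cases k with
  | none => simp [den, ch]
  | some k => simp [den, ch]

theorem den_cont {s : ℕ} (k : Option (Fin s)) {q : ℂ → ℂ × ℂ} (hq : ContinuousAt q 0) :
    ContinuousAt (fun t => den k (q t)) 0 := by
  cases k with
  | none => exact hq.fst
  | some k => exact hq.snd

theorem loc_cont {s : ℕ} {X : Type} (b : Fin s → X → ℂ) (k : Option (Fin s)) {x : ℂ → X}
    {q : ℂ → ℂ × ℂ} (hq : ContinuousAt q 0) (hb : ∀ k, ContinuousAt (fun t => b k (x t)) 0)
    (h : den k (q 0) ≠ 0) : ContinuousAt (fun t => loc b k (x t) (q t)) 0 := by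
  cases k with
  | none => exact hq.snd.div hq.fst h
  | some k => exact (hq.fst.div hq.snd h).sub (hb k)

variable {d n s : ℕ} (S : Sys d n s)

theorem InC_step {x : Fin n → ℂ} (hx : x ∈ S.U) (k : Option (Fin s)) {p : ℂ × ℂ}
    (h : S.InC k x p) : S.InC k x ((S.F x)^[S.per k] p) := by
  obtain ⟨a, z, ha, hz, rfl⟩ := h
  obtain ⟨a', z', ha', hz', he⟩ := S.contr x hx k z hz
  refine ⟨a ^ (d ^ S.per k) * a', z', mul_ne_zero (pow_ne_zero _ ha) ha', ?_, ?_⟩
  · refine lt_of_le_of_lt hz' ?_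
    calc S.θ * ‖z‖ ≤ 1 * ‖z‖ := mul_le_mul_of_nonneg_right S.hθ.le (norm_nonneg _)
      _ = ‖z‖ := one_mul _
      _ < (S.r₀ k) := hz
  · show (hF (S.co x))^[S.per k] (a • ch S.b k x z) = _
    rw [hF_iter_smul, he, smul_smul]; rfl

theorem Dom_step {x : Fin n → ℂ} {k : Option (Fin s)} {p : ℂ × ℂ}
    (h : (x, p) ∈ S.Dom k) : (x, (S.F x)^[S.per k] p) ∈ S.Dom k := by
  obtain ⟨hx, hl, N, hN⟩ := h
  refine ⟨hx, hl, N, ?_⟩
  have h1 := InC_step S hx k hN
  simp only at h1 ⊢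
  rw [← Function.iterate_add_apply] at h1 ⊢
  rwa [add_comm]

theorem fe_iter {KK : Option (Fin s) → (Fin n → ℂ) × (ℂ × ℂ) → ℂ} (hK : S.Koe KK)
    {x : Fin n → ℂ} {k : Option (Fin s)} {p : ℂ × ℂ} (h : (x, p) ∈ S.Dom k) (L : ℕ) :
    (x, (S.F x)^[S.per k * L] p) ∈ S.Dom k ∧
      KK k (x, (S.F x)^[S.per k * L] p) = S.lam k x ^ L * KK k (x, p) := by
  induction L with
  | zero => simpa using h
  | succ L ih =>
    have e : (S.F x)^[S.per k * (L + 1)] p = (S.F x)^[S.per k] ((S.F x)^[S.per k * L] p) := by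
      rw [← Function.iterate_add_apply]; congr 2; ring
    rw [e]
    refine ⟨Dom_step S ih.1, ?_⟩
    rw [hK.fe k x _ ih.1, ih.2, pow_succ]; ring

end OPN

open OPN in
theorem OPN (_hLAM : StLAM) (hLF : StLF) : StOPN := by
  intro d n s l S KK r N ω e A ks ls L ρ₂ K τ y₀ Fh γ hK hL hlam0 hls hKr hτ hγ hN hleaf hyk hρ hK1
    hK1' hcon
  have h0 : (0 : ℂ) ∈ ball (0 : ℂ) τ := mem_ball_self hτ
  have hγc : ContinuousAt γ 0 := (hγ.differentiableAt (isOpen_ball.mem_nhds h0)).continuousAt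
  have hxc : ContinuousAt (fun t => yx (γ t)) 0 := by
    refine tendsto_pi_nhds.2 fun i => ?_
    exact (continuousAt_pi.1 hγc (Sum.inl i))
  have hcc : ∀ i, ContinuousAt (fun t => yc (γ t) i) 0 := fun i =>
    continuousAt_pi.1 hγc (Sum.inr (Sum.inl i))
  have hkc : ∀ k, ContinuousAt (fun t => yk (γ t) k) 0 := by
    intro k
    cases k with
    | none => exact continuousAt_const
    | some k => exact continuousAt_pi.1 hγc (Sum.inr (Sum.inr k))
  have hU : yx (γ 0) ∈ S.U := hL.NU hN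
  have hUo : IsOpen S.U := S.hU
  have hco : ContinuousAt (fun t => S.co (yx (γ t))) 0 := by
    have h1 : ContinuousAt S.co (yx (γ 0)) :=
      (S.hco.differentiableAt (hUo.mem_nhds hU)).continuousAt
    exact ContinuousAt.comp (f := fun t => yx (γ t)) h1 hxc
  have hbc : ∀ k, ContinuousAt (fun t => S.b k (yx (γ t))) 0 := by
    intro k
    have h1 : ContinuousAt (S.b k) (yx (γ 0)) :=
      ((S.hb k).differentiableAt (hUo.mem_nhds hU)).continuousAt
    exact ContinuousAt.comp (f := fun t => yx (γ t)) h1 hxc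
  have hitc : ∀ (i : Fin (2 * d - 2)) (m : ℕ),
      ContinuousAt (fun t => (S.F (yx (γ t)))^[m] (yc (γ t) i, 1)) 0 := by
    intro i m
    have h1 : ContinuousAt (fun t => (S.co (yx (γ t)), ((yc (γ t) i, (1 : ℂ)) : ℂ × ℂ))) 0 :=
      hco.prodMk ((hcc i).prodMk continuousAt_const)
    exact ContinuousAt.comp (f := fun t => (S.co (yx (γ t)), ((yc (γ t) i, (1 : ℂ)) : ℂ × ℂ)))
      (hF_iter_continuous d m).continuousAt h1
  obtain ⟨hl1, hl2, hl3, hl4, hl5, hl6, hl7⟩ := id hleaf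
  obtain ⟨r', r'', hr''0, hr''r', hr'r₀, hinv⟩ := hL.inv
  obtain ⟨-, -, hF3⟩ := hLF d n s l S KK r N ω e A ks ls L ρ₂ K y₀ (γ 0) Fh hK hL hlam0 hls hKr hN
    hleaf
  obtain ⟨-, hFh⟩ := hF3 hyk
  -- eventual statements
  have ev1 : ∀ᶠ t in 𝓝 (0 : ℂ), t ∈ ball (0 : ℂ) τ := isOpen_ball.mem_nhds h0
  have ev2 : ∀ᶠ t in 𝓝 (0 : ℂ), yx (γ t) ∈ N := hxc.eventually_mem (hL.No.mem_nhds hN)
  have ev3 : ∀ᶠ t in 𝓝 (0 : ℂ), ∀ k, yk (γ t) k ≠ 0 :=
    eventually_all.2 fun k => (hkc k).eventually_ne (hyk k)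
  have ev4 : ∀ᶠ t in 𝓝 (0 : ℂ), yx (γ t) ∈ ρ₂ := hρ
  have ev5 : ∀ᶠ t in 𝓝 (0 : ℂ), ∀ k, ‖yk (γ t) (some k)‖ < K :=
    eventually_all.2 fun k => ((hkc (some k)).norm).eventually_lt continuousAt_const (hK1 k)
  have ev6 : ∀ᶠ t in 𝓝 (0 : ℂ), ∀ i ∈ A,
      den (ks i) ((S.F (yx (γ t)))^[ls i + S.per (ks i) * L] (yc (γ t) i, 1)) ≠ 0 ∧
      ‖loc S.b (ks i) (yx (γ t))
        ((S.F (yx (γ t)))^[ls i + S.per (ks i) * L] (yc (γ t) i, 1))‖ < r' := by
    rw [eventually_all_finset]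
    intro i hi
    set q : ℂ → ℂ × ℂ := fun t => (S.F (yx (γ t)))^[ls i + S.per (ks i) * L] (yc (γ t) i, 1) with hq
    have hqc : ContinuousAt q 0 := hitc i _
    have hq0 : q 0 ≠ 0 := by
      apply (S.nd _ hU).iter_ne
      intro h
      have := congrArg Prod.snd h
      simp at this
    set w : ℂ := yk (γ 0) (ks i) * (S.lam (ks i) (yx y₀) ^ L * Fh i) with hw
    have hykK : ‖yk (γ 0) (ks i)‖ ≤ K := hl6 (ks i)
    have hwr : ‖w‖ < r := by
      rw [hw, norm_mul]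
      exact lt_of_le_of_lt (mul_le_mul_of_nonneg_right hykK (norm_nonneg _)) (hKr i hi)
    have h7 : cr (q 0) (S.cht (ks i) (yx (γ 0)) (ω (ks i) (yx (γ 0), w))) = 0 := hl7 i hi
    obtain ⟨a, ha, hqa⟩ := (cr_eq_zero_iff hq0 (ch_ne_zero S.b (ks i) _ _)).1 h7
    have hden : den (ks i) (q 0) ≠ 0 := by
      rw [hqa]
      show den (ks i) (a • ch S.b (ks i) (yx (γ 0)) _) ≠ 0
      rw [den_smul_ch]; exact ha
    have hloc : loc S.b (ks i) (yx (γ 0)) (q 0) = ω (ks i) (yx (γ 0), w) := by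
      rw [hqa]
      exact loc_smul_ch S.b (ks i) (yx (γ 0)) _ ha
    have hz0 : ‖loc S.b (ks i) (yx (γ 0)) (q 0)‖ < r' := by
      rw [hloc]
      exact (hinv (ks i) (yx (γ 0)) hN).1 w hwr
    refine ((den_cont (ks i) hqc).eventually_ne hden).and ?_
    exact ((loc_cont S.b (ks i) hqc hbc hden).norm).eventually_lt continuousAt_const hz0
  have ev := (((((ev1.and ev2).and ev3).and ev4).and ev5).and ev6)
  obtain ⟨τ', hτ', hball⟩ := Metric.eventually_nhds_iff_ball.1 ev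
  refine ⟨min τ' τ, lt_min hτ' hτ, min_le_right _ _, ?_⟩
  intro t ht
  obtain ⟨⟨⟨⟨⟨ht1, ht2⟩, ht3⟩, ht4⟩, ht5⟩, ht6⟩ :=
    hball t (ball_subset_ball (min_le_left _ _) ht)
  obtain ⟨hEr, hGr⟩ := hcon t ht1
  have hlam : ∀ k, S.lam k (yx (γ t)) = S.lam k (yx y₀) := fun k =>
    (hGr (Sum.inr (Sum.inl k))).trans (hl3 k)
  refine ⟨ht2, ht3, ?_, ?_, hlam, ?_, hEr, ?_, ?_⟩
  · exact ht4
  · intro i
    exact (hGr (Sum.inl i)).trans (hl2 i)
  · exact (hGr (Sum.inr (Sum.inr (Sum.inl ())))).trans hl4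
  · intro k
    cases k with
    | none => show ‖(1 : ℂ)‖ ≤ K; rw [norm_one]; exact hK1'
    | some k => exact (ht5 k).le
  · intro i hi
    obtain ⟨hden, hlt⟩ := ht6 i hi
    set x := yx (γ t) with hx
    set k := ks i with hk
    set p : ℂ × ℂ := (S.F x)^[ls i] (yc (γ t) i, 1) with hp
    set q : ℂ × ℂ := (S.F x)^[ls i + S.per k * L] (yc (γ t) i, 1) with hq
    set z : ℂ := loc S.b k x q with hz
    have hxU : x ∈ S.U := hL.NU ht2
    have hqp : q = (S.F x)^[S.per k * L] p := by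
      rw [hq, hp, ← Function.iterate_add_apply, add_comm]
    have hqz : q = den k q • S.cht k x z := smul_loc S.b k x q hden
    have hInq : S.InC k x q := ⟨den k q, z, hden, hlt.trans_le (hr'r₀ k), hqz⟩
    have hDomp : (x, p) ∈ S.Dom k := ⟨hxU, hL.lam0 x ht2 k, L, by simpa [← hqp] using hInq⟩
    obtain ⟨hDomq, hfe⟩ := fe_iter S hK hDomp L
    rw [← hqp] at hDomq hfe
    have hDomz : (x, S.cht k x z) ∈ S.Dom k := by
      refine ⟨hxU, hL.lam0 x ht2 k, 0, ?_⟩
      simp only [mul_zero, Function.iterate_zero, id_eq]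
      exact ⟨1, z, one_ne_zero, hlt.trans_le (hr'r₀ k), by rw [one_smul]⟩
    have hKz : KK k (x, S.cht k x z) = KK k (x, q) := by
      rw [← hK.hom k x (S.cht k x z) hDomz (den k q) hden, ← hqz]
    have hG : KK k (x, p) / yk (γ t) k = Fh i := by
      have h1 := hGr (Sum.inr (Sum.inr (Sum.inr ⟨i, hi⟩)))
      exact h1.trans (hFh i hi)
    have hKp : KK k (x, p) = yk (γ t) k * Fh i := by
      rw [← hG, mul_div_cancel₀ _ (ht3 k)]
    have hval : KK k (x, S.cht k x z) = yk (γ t) k * (S.lam k (yx y₀) ^ L * Fh i) := by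
      rw [hKz, hfe, hKp, hlam k]; ring
    have hykt : ‖yk (γ t) k‖ ≤ K := by
      cases hkk : k with
      | none => show ‖(1 : ℂ)‖ ≤ K; rw [norm_one]; exact hK1'
      | some k' => exact (ht5 k').le
    have hnr : ‖KK k (x, S.cht k x z)‖ < r := by
      rw [hval, norm_mul]
      exact lt_of_le_of_lt (mul_le_mul_of_nonneg_right hykt (norm_nonneg _)) (hKr i hi)
    have hω : ω k (x, KK k (x, S.cht k x z)) = z := (hinv k x ht2).2.1 z hlt hnr
    rw [hval] at hω
    rw [hω, hqz, cr_smul_left, cr_self, mul_zero]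

end Pool.Agent.W757.RC
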