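import Mathlib
import Pool.Agent.W757.RC.St
import Pool.Agent.H790R3.RB.Basic

/-! Orbits of the linearised points. -/

set_option autoImplicit false

open Topology Filter Metric Set MeasureTheory

open Pool.Agent.H790R3.RB

namespace Pool.Agent.W757.RC

namespace ORB

variable {d n s : ℕ} {S : Sys d n s}
  {KK : Option (Fin s) → (Fin n → ℂ) × (ℂ × ℂ) → ℂ} {r : ℝ}
  {N : Set (Fin n → ℂ)} {ω : Option (Fin s) → (Fin n → ℂ) × ℂ → ℂ}

theorem pt_ne (hL : S.Lin KK N r ω) {x : Fin n → ℂ} (hx : x ∈ N) (k : Option (Fin s)) (a : ℕ)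
    (w : ℂ) : S.pt ω k a x w ≠ 0 :=
  ND.iter_ne (S.nd x (hL.NU hx)) a (ch_ne_zero S.b k x _)

theorem pt_add (k : Option (Fin s)) (x : Fin n → ℂ) (w : ℂ) (m l : ℕ) :
    (S.F x)^[m] (S.pt ω k l x w) = S.pt ω k (m + l) x w := by
  unfold Sys.pt
  rw [Function.iterate_add_apply]

theorem one (hL : S.Lin KK N r ω) {x : Fin n → ℂ} (hx : x ∈ N) (k : Option (Fin s)) (a : ℕ)
    (w : ℂ) (hw : ‖w‖ < r) :
    cr (S.pt ω k (S.per k + a) x w) (S.pt ω k a x (S.lam k x * w)) = 0 := by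
  obtain ⟨A, hA, h⟩ := hL.fe k x hx w hw
  have h1 : S.pt ω k (S.per k + a) x w =
      A ^ (d ^ a) • S.pt ω k a x (S.lam k x * w) := by
    rw [add_comm, ← pt_add]
    unfold Sys.pt
    rw [h]
    exact hF_iter_smul (S.co x) a A _
  rw [h1, cr_smul_left, cr_self, mul_zero]

theorem norm_lam_mul (hLAM : StLAM) (hL : S.Lin KK N r ω) {x : Fin n → ℂ} (hx : x ∈ N)
    (k : Option (Fin s)) (w : ℂ) (hw : ‖w‖ < r) : ‖S.lam k x * w‖ < r := by
  have h1 := (hLAM d n s S).2.2.1 k x (hL.NU hx)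
  have h2 : ‖S.lam k x‖ ≤ 1 := h1.trans S.hθ.le
  rw [norm_mul]
  calc ‖S.lam k x‖ * ‖w‖ ≤ 1 * ‖w‖ := by gcongr
    _ = ‖w‖ := one_mul _
    _ < r := hw

theorem norm_lam_pow_mul (hLAM : StLAM) (hL : S.Lin KK N r ω) {x : Fin n → ℂ} (hx : x ∈ N)
    (k : Option (Fin s)) (w : ℂ) (hw : ‖w‖ < r) (j : ℕ) : ‖S.lam k x ^ j * w‖ < r := by
  induction j with
  | zero => simpa using hw
  | succ j ih =>
    rw [pow_succ', mul_assoc]
    exact norm_lam_mul hLAM hL hx k _ ih

theorem many (hLAM : StLAM) (hL : S.Lin KK N r ω) {x : Fin n → ℂ} (hx : x ∈ N)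
    (k : Option (Fin s)) (a j : ℕ) (w : ℂ) (hw : ‖w‖ < r) :
    cr (S.pt ω k (S.per k * j + a) x w) (S.pt ω k a x (S.lam k x ^ j * w)) = 0 := by
  induction j generalizing w with
  | zero => simpa using cr_self _
  | succ j ih =>
    have h1 := one hL hx k (S.per k * j + a) w hw
    have h2 := ih (S.lam k x * w) (norm_lam_mul hLAM hL hx k w hw)
    have h3 := cr_trans (pt_ne hL hx k _ _) h1 h2
    have e1 : S.per k * (j + 1) + a = S.per k + (S.per k * j + a) := by ring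
    have e2 : S.lam k x ^ (j + 1) * w = S.lam k x ^ j * (S.lam k x * w) := by ring
    rw [e1, e2]
    exact h3

theorem three (hLAM : StLAM) (hL : S.Lin KK N r ω) {x : Fin n → ℂ} (hx : x ∈ N)
    (k k' : Option (Fin s)) (w w' : ℂ) (hw : ‖w‖ < r) (hw' : ‖w'‖ < r) (a b : ℕ)
    (h : cr (S.pt ω k a x w) (S.pt ω k' b x w') = 0) :
    k = k' ∧ a % S.per k = b % S.per k ∧
        S.lam k x ^ (a / S.per k) * w = S.lam k x ^ (b / S.per k) * w' := by
  have hxU := hL.NU hx
  -- first step: push forward to the base point of the cycle `k'`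
  have hp' := S.hper k'
  have hb0 : b % S.per k' < S.per k' := Nat.mod_lt _ hp'
  have hb := Nat.div_add_mod b (S.per k')
  have h1 := cr_iter (S.co x) (S.per k' - b % S.per k') (pt_ne hL hx k a w) (pt_ne hL hx k' b w') h
  change cr ((S.F x)^[_] _) ((S.F x)^[_] _) = 0 at h1
  rw [pt_add, pt_add] at h1
  have e1 : S.per k' - b % S.per k' + b = S.per k' * (b / S.per k' + 1) + 0 := by
    have : S.per k' * (b / S.per k' + 1) = S.per k' * (b / S.per k') + S.per k' := by ring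
    omega
  rw [e1] at h1
  have h2 := many hLAM hL hx k' 0 (b / S.per k' + 1) w' hw'
  have h3 := cr_trans (pt_ne hL hx k' _ _) h1 h2
  obtain ⟨A, hA, h4⟩ := (cr_eq_zero_iff (pt_ne hL hx k _ _) (pt_ne hL hx k' _ _)).mp h3
  have hW' := norm_lam_pow_mul hLAM hL hx k' w' hw' (b / S.per k' + 1)
  have h5 := S.sep x hxU k k' (ω k (x, w)) (ω k' (x, S.lam k' x ^ (b / S.per k' + 1) * w')) A
    (S.per k' - b % S.per k' + a) (hL.ωr k x hx w hw).1 (hL.ωr k' x hx _ hW').1 h4
  obtain ⟨rfl, hdiv⟩ := h5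
  have hmod : a % S.per k = b % S.per k := by
    have h6 : S.per k ∣ (S.per k - b % S.per k + a) := hdiv
    obtain ⟨c, hc⟩ := h6
    have h7 : a + S.per k = S.per k * c + b % S.per k := by omega
    have h8 : (a + S.per k) % S.per k = (S.per k * c + b % S.per k) % S.per k := by rw [h7]
    rw [Nat.add_mod_right, Nat.mul_add_mod, Nat.mod_mod] at h8
    exact h8
  refine ⟨rfl, hmod, ?_⟩
  have ha := Nat.div_add_mod a (S.per k)
  have e2 : S.per k - b % S.per k + a = S.per k * (a / S.per k + 1) + 0 := by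
    have : S.per k * (a / S.per k + 1) = S.per k * (a / S.per k) + S.per k := by ring
    omega
  rw [e2] at h3
  have h6 := many hLAM hL hx k 0 (a / S.per k + 1) w hw
  have h7 := cr_trans (pt_ne hL hx k _ _) (by rw [cr_comm, neg_eq_zero]; exact h6) h3
  have hW := norm_lam_pow_mul hLAM hL hx k w hw (a / S.per k + 1)
  have h8 : ω k (x, S.lam k x ^ (a / S.per k + 1) * w) =
      ω k (x, S.lam k x ^ (b / S.per k + 1) * w') := cr_ch S.b k x h7
  have h9 := (hL.ωr k x hx _ hW).2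
  have h10 := (hL.ωr k x hx _ hW').2
  rw [h8, h10] at h9
  have hl := hL.lam0 x hx k
  apply mul_left_cancel₀ hl
  rw [← mul_assoc, ← mul_assoc, ← pow_succ', ← pow_succ']
  exact h9.symm

end ORB

theorem ORB (hLAM : StLAM) : StORB := by
  intro d n s S KK r N ω _ hL x hx k k' w w' hw hw' a b
  refine ⟨ORB.pt_ne hL hx k a w, ORB.one hL hx k a w hw,
    ORB.three hLAM hL hx k k' w w' hw hw' a b, ?_⟩
  intro ha hne h2
  have h0 : S.pt ω none 0 x 0 = (1, 0) := by
    have := hL.ω0 none x hx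
    simp [Sys.pt, Sys.cht, ch, this]
  have h1 : cr (S.pt ω k a x w) (S.pt ω none 0 x 0) = 0 := by
    rw [h0]
    simp [cr, h2]
  obtain ⟨hk, hm, he⟩ := ORB.three hLAM hL hx k none w 0 hw (by simpa using hL.hr) a 0 h1
  rw [Nat.zero_mod, Nat.mod_eq_of_lt ha] at hm
  rw [hm] at he
  simp at he
  rcases hne with h | h | h
  · exact h hk
  · exact h hm
  · exact h he

end Pool.Agent.W757.RC
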