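import Mathlib
import Pool.Agent.W757.RC.St
import Pool.Agent.H790R3.RB.Basic

/-!
# TOP: all critical points enter the discs (helper602)
-/

set_option autoImplicit false

open Topology Filter Metric Set MeasureTheory
open scoped OnePoint

open Pool.Agent.H790R3.RB

namespace Pool.Agent.W757.RC

namespace TOP

variable {d n s : ℕ}

theorem pr_smul {a : ℂ} (ha : a ≠ 0) (q : ℂ × ℂ) : pr (a • q) = pr q := by
  unfold pr
  by_cases h : q.2 = 0
  · have h' : (a • q).2 = 0 := by rw [Prod.smul_snd, h, smul_zero]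
    rw [if_pos h, if_pos h']
  · have h' : (a • q).2 ≠ 0 := by
      rw [Prod.smul_snd, smul_eq_mul]
      exact mul_ne_zero ha h
    rw [if_neg h, if_neg h', Prod.smul_snd, Prod.smul_fst, smul_eq_mul, smul_eq_mul,
      mul_div_mul_left _ _ ha]

theorem pr_none (S : Sys d n s) (x : Fin n → ℂ) {z : ℂ} (hz : z ≠ 0) :
    pr (S.cht none x z) = ((1 / z : ℂ) : OnePoint ℂ) := by
  have h : S.cht none x z = (1, z) := rfl
  rw [h]
  unfold pr
  rw [if_neg hz]

theorem pr_none0 (S : Sys d n s) (x : Fin n → ℂ) : pr (S.cht none x 0) = ∞ := by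
  have h : S.cht none x 0 = (1, 0) := rfl
  rw [h]
  unfold pr
  rw [if_pos rfl]

theorem pr_some (S : Sys d n s) (x : Fin n → ℂ) (k : Fin s) (z : ℂ) :
    pr (S.cht (some k) x z) = ((S.b k x + z : ℂ) : OnePoint ℂ) := by
  have h : S.cht (some k) x z = (S.b k x + z, 1) := rfl
  rw [h]
  unfold pr
  rw [if_neg one_ne_zero, div_one]

/-- the disc on the sphere -/
def Dk (S : Sys d n s) (k : Option (Fin s)) (x : Fin n → ℂ) : Set (OnePoint ℂ) :=
  {w | ∃ z : ℂ, ‖z‖ < (S.r₀ k) ∧ w = pr (S.cht k x z)}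

theorem Dk_nhds (S : Sys d n s) (k : Option (Fin s)) (x : Fin n → ℂ) :
    Dk S k x ∈ 𝓝 (pr (S.cht k x 0)) := by
  have hr := (S.hr₀ k)
  cases k with
  | none =>
    rw [pr_none0]
    have ho : IsOpen (((↑) : ℂ → OnePoint ℂ) '' closedBall 0 (1 / S.r₀ none))ᶜ := by
      rw [OnePoint.isOpen_compl_image_coe]
      exact ⟨isClosed_closedBall, isCompact_closedBall _ _⟩
    refine Filter.mem_of_superset (ho.mem_nhds ?_) ?_
    · rintro ⟨z, -, hz⟩
      exact OnePoint.coe_ne_infty z hz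
    · intro w hw
      induction w using OnePoint.rec with
      | infty => exact ⟨0, by rw [norm_zero]; exact hr, (pr_none0 S x).symm⟩
      | coe u =>
        have hu : 1 / S.r₀ none < ‖u‖ := by
          by_contra hcon
          push Not at hcon
          exact hw ⟨u, by rw [mem_closedBall_zero_iff]; exact hcon, rfl⟩
        have hu0 : 0 < ‖u‖ := lt_trans (by positivity) hu
        have hne : u ≠ 0 := norm_pos_iff.1 hu0
        refine ⟨1 / u, ?_, ?_⟩
        · rw [norm_div, norm_one, div_lt_iff₀ hu0]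
          rw [div_lt_iff₀ hr] at hu
          linarith
        · rw [pr_none S x (one_div_ne_zero hne), one_div_one_div]
  | some k =>
    rw [pr_some, add_zero]
    have ho : IsOpen (((↑) : ℂ → OnePoint ℂ) '' ball (S.b k x) (S.r₀ k)) :=
      OnePoint.isOpenEmbedding_coe.isOpenMap _ isOpen_ball
    refine Filter.mem_of_superset (ho.mem_nhds ⟨_, mem_ball_self hr, rfl⟩) ?_
    rintro w ⟨u, hu, rfl⟩
    refine ⟨u - S.b k x, ?_, ?_⟩
    · rw [mem_ball, dist_eq_norm] at hu
      exact hu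
    · rw [pr_some]
      congr 1
      ring

theorem iter_chart (S : Sys d n s) {x : Fin n → ℂ} (hx : x ∈ S.U) (k : Option (Fin s))
    (hf : ∀ p : ℂ × ℂ, p ≠ 0 → ∀ N : ℕ,
      (sp (S.co x))^[N] (pr p) = pr ((hF (S.co x))^[N] p)) (j : ℕ) (z : ℂ) (hz : ‖z‖ < (S.r₀ k)) :
    ∃ z' : ℂ, ‖z'‖ ≤ S.θ ^ j * ‖z‖ ∧
      (sp (S.co x))^[S.per k * j] (pr (S.cht k x z)) = pr (S.cht k x z') := by
  induction j with
  | zero => exact ⟨z, by rw [pow_zero, one_mul], by rw [mul_zero]; rfl⟩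
  | succ j ih =>
    obtain ⟨z', h1, h2⟩ := ih
    have hz' : ‖z'‖ < (S.r₀ k) := by
      have h3 : S.θ ^ j ≤ 1 := pow_le_one₀ S.hθ0 S.hθ.le
      have h4 := mul_le_mul_of_nonneg_right h3 (norm_nonneg z)
      linarith
    obtain ⟨a, z'', ha, h5, h6⟩ := S.contr x hx k z' hz'
    refine ⟨z'', ?_, ?_⟩
    · have h7 := mul_le_mul_of_nonneg_left h1 S.hθ0
      calc ‖z''‖ ≤ S.θ * ‖z'‖ := h5
        _ ≤ S.θ * (S.θ ^ j * ‖z‖) := h7
        _ = S.θ ^ (j + 1) * ‖z‖ := by ring
    · have e : S.per k * (j + 1) = S.per k + S.per k * j := by ring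
      have hne : S.cht k x z' ≠ 0 := ch_ne_zero S.b k x z'
      rw [e, Function.iterate_add_apply, h2, hf _ hne]
      have h8 : (hF (S.co x))^[S.per k] (S.cht k x z') = a • S.cht k x z'' := h6
      rw [h8, pr_smul ha]

theorem cont_chart (S : Sys d n s) (k : Option (Fin s)) (x : Fin n → ℂ)
    (hc : ContinuousOn pr {p : ℂ × ℂ | p ≠ 0}) :
    Continuous fun z : ℂ => pr (S.cht k x z) := by
  have h1 : Continuous fun z : ℂ => S.cht k x z := by
    cases k with
    | none =>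
      have h : (fun z : ℂ => S.cht none x z) = fun z : ℂ => ((1 : ℂ), z) := rfl
      rw [h]
      fun_prop
    | some k =>
      have h : (fun z : ℂ => S.cht (some k) x z) = fun z : ℂ => (S.b k x + z, (1 : ℂ)) := rfl
      rw [h]
      fun_prop
  exact hc.comp_continuous h1 fun z => ch_ne_zero S.b k x z

theorem tend_chart (S : Sys d n s) {x : Fin n → ℂ} (hx : x ∈ S.U) (k : Option (Fin s))
    (hf : ∀ p : ℂ × ℂ, p ≠ 0 → ∀ N : ℕ,
      (sp (S.co x))^[N] (pr p) = pr ((hF (S.co x))^[N] p))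
    (hc : ContinuousOn pr {p : ℂ × ℂ | p ≠ 0}) (w : OnePoint ℂ) (hw : w ∈ Dk S k x) :
    Tendsto (fun j : ℕ => (sp (S.co x))^[S.per k * j] w) atTop (𝓝 (pr (S.cht k x 0))) := by
  obtain ⟨z, hz, rfl⟩ := hw
  choose z' h1 h2 using fun j => iter_chart S hx k hf j z hz
  have h3 : Tendsto z' atTop (𝓝 0) := by
    refine squeeze_zero_norm h1 ?_
    have h4 := (tendsto_pow_atTop_nhds_zero_of_lt_one S.hθ0 S.hθ).mul_const ‖z‖
    rwa [zero_mul] at h4
  have h5 := ((cont_chart S k x hc).tendsto 0).comp h3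
  refine h5.congr fun j => ?_
  exact (h2 j).symm

end TOP

open TOP in
theorem TOP (hSP : StSP) (hINJL : StINJL) (_hLAM : StLAM) : StTOP := by
  intro d n s S x hx hcrit c hcr
  have hd : 1 ≤ d := le_trans (by norm_num) S.hd
  obtain ⟨hcont, hf, -, hhc, hprc⟩ := hSP d (S.co x) hd (S.nd x hx)
  obtain ⟨e1, e2⟩ := hhc c
  have hwr : wr (S.co x) (hc c) = 0 := by
    by_contra hne
    obtain ⟨U, hU, hinj⟩ := hINJL d (S.co x) (hc c) S.hd (S.nd x hx) e2 hne
    rw [e1] at hU
    exact hcr ⟨U, hU, hinj⟩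
  obtain ⟨k, m, a, z, ha, hz, hm⟩ := hcrit (hc c) e2 hwr
  set f : OnePoint ℂ → OnePoint ℂ := sp (S.co x) with hfd
  set P : ℕ := S.per k with hP
  have hP1 : 1 ≤ P := S.hper k
  set b : OnePoint ℂ := pr (S.cht k x 0) with hb
  -- the critical orbit enters the disc
  have hcD : f^[m] c ∈ Dk S k x := by
    refine ⟨z, hz, ?_⟩
    have h1 : f^[m] (pr (hc c)) = pr ((hF (S.co x))^[m] (hc c)) := hf _ e2 m
    rw [e1] at h1
    rw [h1]
    have h2 : (hF (S.co x))^[m] (hc c) = a • S.cht k x z := hm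
    rw [h2, pr_smul ha]
  have hfc : ∀ N : ℕ, Continuous f^[N] := fun N => hcont.iterate N
  -- attraction
  have hatt : ∀ w : OnePoint ℂ, f^[m] w ∈ Dk S k x →
      Tendsto (fun j : ℕ => f^[P * j] w) atTop (𝓝 (f^[m * (P - 1)] b)) := by
    intro w hw
    have h1 := tend_chart S hx k hf hprc _ hw
    have h2 : Tendsto (fun j : ℕ => f^[m * (P - 1)] (f^[P * j] (f^[m] w))) atTop
        (𝓝 (f^[m * (P - 1)] b)) := ((hfc (m * (P - 1))).tendsto b).comp h1
    have h3 : Tendsto (fun j : ℕ => j - m) atTop atTop := tendsto_sub_atTop_nat m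
    have h4 := h2.comp h3
    refine h4.congr' ?_
    filter_upwards [eventually_ge_atTop m] with j hj
    show f^[m * (P - 1)] (f^[P * (j - m)] (f^[m] w)) = f^[P * j] w
    rw [← Function.iterate_add_apply, ← Function.iterate_add_apply]
    congr 1
    obtain ⟨i, rfl⟩ := Nat.exists_eq_add_of_le hj
    obtain ⟨Q, hQ⟩ := Nat.exists_eq_add_of_le hP1
    rw [hQ, Nat.add_sub_cancel_left, Nat.add_sub_cancel_left]
    ring
  -- the base point is fixed
  have hbfix : f^[P] b = b := by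
    obtain ⟨z', h1, h2⟩ := iter_chart S hx k hf 1 0 (by rw [norm_zero]; exact (S.hr₀ k))
    rw [norm_zero, mul_zero] at h1
    have h3 : z' = 0 := norm_le_zero_iff.1 h1
    rw [h3, mul_one] at h2
    exact h2
  have hbfix' : ∀ j : ℕ, f^[P * j] b = b := by
    intro j
    rw [Function.iterate_mul]
    exact Function.iterate_fixed hbfix j
  refine ⟨f^[m * (P - 1)] b, P, hP1, ?_, ?_, hatt c hcD⟩
  · rw [← Function.iterate_add_apply, add_comm, Function.iterate_add_apply, hbfix]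
  · refine ⟨f^[m] ⁻¹' (Dk S k x), ?_, fun w hw => hatt w hw⟩
    refine (hfc m).continuousAt.preimage_mem_nhds ?_
    have h1 : f^[m] (f^[m * (P - 1)] b) = b := by
      rw [← Function.iterate_add_apply]
      have h2 : m + m * (P - 1) = P * m := by
        obtain ⟨Q, hQ⟩ := Nat.exists_eq_add_of_le hP1
        rw [hQ, Nat.add_sub_cancel_left]
        ring
      rw [h2, hbfix']
    rw [h1]
    exact Dk_nhds S k x

end Pool.Agent.W757.RC
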