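import Mathlib
import Pool.Agent.W757.RC.St
import Pool.Agent.H790R3.RB.Basic

/-! Task ZZ (helper771): choice of the test points and of the radius. -/

set_option autoImplicit false

open Topology Filter Metric Set MeasureTheory

open Pool.Agent.H790R3.RB

namespace Pool.Agent.W757.RC

namespace ZZ

open Polynomial

/-- the second coordinate of the iterate is a nonzero polynomial -/
theorem B_ne {d : ℕ} (hd : 2 ≤ d) {x : CV d} (hx : ND x) {N : ℕ} {A B : ℂ[X]}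
    (hA : ∀ ζ : ℂ, A.eval ζ = ((hF x)^[N] (ζ, 1)).1) (hB : ∀ ζ : ℂ, B.eval ζ = ((hF x)^[N] (ζ, 1)).2)
    (hAc : A.coeff (d ^ N) = ((hF x)^[N] (1, 0)).1)
    (hBc : B.coeff (d ^ N) = ((hF x)^[N] (1, 0)).2) : B ≠ 0 := by
  intro h
  have h10 : ((1, 0) : ℂ × ℂ) ≠ 0 := by simp
  have h1 := hx.iter_ne N h10
  have hAc' : A.coeff (d ^ N) ≠ 0 := by
    intro h2
    apply h1
    rw [h, coeff_zero] at hBc
    rw [h2] at hAc
    exact Prod.ext hAc.symm hBc.symm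
  have hdeg : A.degree ≠ 0 := by
    intro h2
    have h3 : A.natDegree = 0 := natDegree_eq_zero_iff_degree_le_zero.2 h2.le
    have h4 : 0 < d ^ N := by positivity
    exact hAc' (coeff_eq_zero_of_natDegree_lt (by omega))
  obtain ⟨ζ, hζ⟩ := IsAlgClosed.exists_root A hdeg
  have h5 : (hF x)^[N] (ζ, 1) = 0 := by
    refine Prod.ext ?_ ?_
    · rw [← hA ζ]
      exact hζ
    · rw [← hB ζ, h, eval_zero]
      rfl
  have h6 := congrArg Prod.snd (hx.iter N h5)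
  simp at h6

theorem exists_Z {B : ℂ[X]} (hB : B ≠ 0) (c : ℝ) (K : ℕ) :
    ∃ Z : Finset ℂ, Z.card = K ∧ (∀ ζ ∈ Z, c < ‖ζ‖) ∧ ∀ ζ ∈ Z, B.eval ζ ≠ 0 := by
  have h1 : {ζ : ℂ | c < ‖ζ‖}.Infinite := by
    have h2 : ((fun t : ℝ => (t : ℂ)) '' Ioi (max c 0)).Infinite :=
      (Ioi_infinite _).image Complex.ofReal_injective.injOn
    refine h2.mono ?_
    rintro _ ⟨t, ht, rfl⟩
    rw [mem_Ioi, max_lt_iff] at ht
    show c < ‖(t : ℂ)‖
    rw [Complex.norm_real, Real.norm_eq_abs, abs_of_pos ht.2]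
    exact ht.1
  have h3 : ({ζ : ℂ | c < ‖ζ‖} \ (↑B.roots.toFinset : Set ℂ)).Infinite :=
    h1.sdiff (Finset.finite_toSet _)
  obtain ⟨Z, hZ, hc⟩ := h3.exists_subset_card_eq K
  refine ⟨Z, hc, fun ζ hζ => (hZ hζ).1, fun ζ hζ h0 => (hZ hζ).2 ?_⟩
  rw [Finset.mem_coe, Multiset.mem_toFinset, mem_roots hB]
  exact h0

/-- agreement at many points -/
theorem cr_zero (hPOLY : StPOLY) {d : ℕ} (hd : 1 ≤ d) (x x' : CV d) (N : ℕ) (Z : Finset ℂ)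
    (hZ : 2 * d ^ N < Z.card) (h : ∀ ζ ∈ Z, cr ((hF x)^[N] (ζ, 1)) ((hF x')^[N] (ζ, 1)) = 0)
    (p : ℂ × ℂ) : cr ((hF x)^[N] p) ((hF x')^[N] p) = 0 := by
  obtain ⟨A, B, dA, dB, hA, hB, cA, cB⟩ := hPOLY d x N hd
  obtain ⟨A', B', dA', dB', hA', hB', cA', cB'⟩ := hPOLY d x' N hd
  set H := A * B' - B * A' with hH
  have hHe : ∀ ζ : ℂ, H.eval ζ = cr ((hF x)^[N] (ζ, 1)) ((hF x')^[N] (ζ, 1)) := by
    intro ζ
    rw [hH, eval_sub, eval_mul, eval_mul, hA, hB, hA', hB']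
    rfl
  have hH0 : H = 0 := by
    refine eq_zero_of_natDegree_lt_card_of_eval_eq_zero' H Z (fun ζ hζ => ?_) ?_
    · rw [hHe]
      exact h ζ hζ
    · have h1 : (A * B').natDegree ≤ 2 * d ^ N := natDegree_mul_le.trans (by omega)
      have h2 : (B * A').natDegree ≤ 2 * d ^ N := natDegree_mul_le.trans (by omega)
      exact (natDegree_sub_le_of_le h1 h2).trans_lt (by rw [max_self]; exact hZ)
  have hcr1 : cr ((hF x)^[N] (1, 0)) ((hF x')^[N] (1, 0)) = 0 := by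
    have h1 : H.coeff (d ^ N + d ^ N) = 0 := by rw [hH0, coeff_zero]
    rw [hH, coeff_sub, coeff_mul_add_eq_of_natDegree_le dA dB',
      coeff_mul_add_eq_of_natDegree_le dB dA', cA, cB, cA', cB'] at h1
    exact h1
  by_cases hp : p.2 = 0
  · have h1 : p = p.1 • ((1, 0) : ℂ × ℂ) := by
      refine Prod.ext ?_ ?_
      · simp
      · simp [hp]
    rw [h1, hF_iter_smul, hF_iter_smul, cr_smul_left, cr_smul_right, hcr1, mul_zero, mul_zero]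
  · have h1 : p = p.2 • ((p.1 / p.2, 1) : ℂ × ℂ) := by
      refine Prod.ext ?_ ?_
      · simp only [Prod.smul_fst, smul_eq_mul]
        field_simp
      · simp
    rw [h1, hF_iter_smul, hF_iter_smul, cr_smul_left, cr_smul_right, ← hHe, hH0, eval_zero,
      mul_zero, mul_zero]

end ZZ

open ZZ in
theorem ZZ (hPOLY : StPOLY) : StZZ := by
  intro d n s l S e hed hsepe ρ' hρ'
  have hd : 2 ≤ d := S.hd
  have hxT : S.xT ∈ ball S.xT S.ρ := mem_ball_self S.hρ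
  set N := S.per none with hN
  obtain ⟨A, B, dA, dB, hA, hB, cA, cB⟩ := hPOLY d (S.co S.xT) N (by omega)
  have hB0 : B ≠ 0 := B_ne hd (S.nd _ hxT) hA hB cA cB
  obtain ⟨Z, hZc, hZn, hZB⟩ := exists_Z hB0 (1 / S.r₀) (2 * d ^ N + 1)
  -- continuity
  have hco : ContinuousOn S.co (ball S.xT S.ρ) := S.hco.continuousOn
  have hcx : ∀ x ∈ ball S.xT S.ρ, ∀ w : ℂ,
      ContinuousAt (fun q : (Fin n → ℂ) × ℂ => (hF (S.co q.1))^[N] (q.2, 1)) (x, w) := by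
    intro x hx w
    have h1 : ContinuousAt (fun q : (Fin n → ℂ) × ℂ => S.co q.1) (x, w) :=
      ContinuousAt.comp (f := Prod.fst) (hco.continuousAt (isOpen_ball.mem_nhds hx))
        continuousAt_fst
    have h2 : ContinuousAt (fun q : (Fin n → ℂ) × ℂ => ((q.2, 1) : ℂ × ℂ)) (x, w) := by fun_prop
    exact ((hF_iter_continuous d N).continuousAt).comp
      (f := fun q : (Fin n → ℂ) × ℂ => (S.co q.1, ((q.2, 1) : ℂ × ℂ))) (h1.prodMk h2)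
  have hrtc : ∀ x ∈ ball S.xT S.ρ, ∀ w : ℂ, ((hF (S.co x))^[N] (w, 1)).2 ≠ 0 →
      ContinuousAt (fun q : (Fin n → ℂ) × ℂ => rt (S.co q.1) N q.2) (x, w) := by
    intro x hx w hw
    unfold rt
    exact (hcx x hx w).fst.div (hcx x hx w).snd hw
  have hT : ∀ ζ ∈ Z, ((hF (S.co S.xT))^[N] (ζ, 1)).2 ≠ 0 := by
    intro ζ hζ
    rw [← hB]
    exact hZB ζ hζ
  set M : ℝ := ∑ ζ ∈ Z, (‖rt (S.co S.xT) N ζ‖ + 1) with hM
  have hM0 : 0 ≤ M := Finset.sum_nonneg fun ζ _ => by positivity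
  have hMζ : ∀ ζ ∈ Z, ‖rt (S.co S.xT) N ζ‖ + 1 ≤ M := fun ζ hζ =>
    Finset.single_le_sum (f := fun ζ => ‖rt (S.co S.xT) N ζ‖ + 1) (fun ζ _ => by positivity) hζ
  have hloc : ∀ ζ ∈ Z, ∃ ε > 0, ∀ x w, dist x S.xT < ε → dist w ζ < ε →
      ((hF (S.co x))^[N] (w, 1)).2 ≠ 0 ∧ ‖rt (S.co x) N w‖ ≤ M := by
    intro ζ hζ
    have h1 : ∀ᶠ q : (Fin n → ℂ) × ℂ in 𝓝 (S.xT, ζ), ((hF (S.co q.1))^[N] (q.2, 1)).2 ≠ 0 :=
      (hcx _ hxT ζ).snd.eventually_ne (hT ζ hζ)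
    have h2 : ∀ᶠ q : (Fin n → ℂ) × ℂ in 𝓝 (S.xT, ζ), ‖rt (S.co q.1) N q.2‖ <
        ‖rt (S.co S.xT) N ζ‖ + 1 :=
      (hrtc _ hxT ζ (hT ζ hζ)).norm.eventually (gt_mem_nhds (lt_add_one _))
    obtain ⟨ε, hε, h3⟩ := Metric.eventually_nhds_iff.1 (h1.and h2)
    refine ⟨ε, hε, fun x w hx hw => ?_⟩
    have h4 := h3 (y := (x, w)) (by rw [Prod.dist_eq]; exact max_lt hx hw)
    exact ⟨h4.1, h4.2.le.trans (hMζ ζ hζ)⟩
  have hunif : ∀ᶠ ε in 𝓝[>] (0 : ℝ), ∀ ζ ∈ Z, ∀ x w, dist x S.xT < ε → dist w ζ < ε →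
      ((hF (S.co x))^[N] (w, 1)).2 ≠ 0 ∧ ‖rt (S.co x) N w‖ ≤ M := by
    rw [Filter.eventually_all_finset]
    intro ζ hζ
    obtain ⟨ε, hε, h⟩ := hloc ζ hζ
    filter_upwards [Ioo_mem_nhdsGT hε] with ε' hε' x w hx hw
    exact h x w (hx.trans hε'.2) (hw.trans hε'.2)
  obtain ⟨δ, hδ, hδ0⟩ := (hunif.and self_mem_nhdsWithin).exists
  obtain ⟨ε₁, hε₁, hsep⟩ := hsepe S.xT hxT
  set ρ₂ : ℝ := min (min ρ' S.ρ) (min δ ε₁) / 2 with hρ₂
  have hmin : 0 < min (min ρ' S.ρ) (min δ ε₁) := lt_min (lt_min hρ' S.hρ) (lt_min hδ0 hε₁)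
  have hρ₂0 : 0 < ρ₂ := by rw [hρ₂]; linarith
  have hlt : ρ₂ < min (min ρ' S.ρ) (min δ ε₁) := by rw [hρ₂]; linarith
  have l1 : ρ₂ < ρ' := hlt.trans_le ((min_le_left _ _).trans (min_le_left _ _))
  have l2 : ρ₂ < S.ρ := hlt.trans_le ((min_le_left _ _).trans (min_le_right _ _))
  have l3 : ρ₂ < δ := hlt.trans_le ((min_le_right _ _).trans (min_le_left _ _))
  have l4 : ρ₂ < ε₁ := hlt.trans_le ((min_le_right _ _).trans (min_le_right _ _))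
  have hprop : ∀ x ∈ closedBall S.xT ρ₂, ∀ ζ ∈ Z, ∀ w ∈ ball ζ δ,
      ((S.F x)^[N] (w, 1)).2 ≠ 0 ∧ ‖rt (S.co x) N w‖ ≤ M := by
    intro x hx ζ hζ w hw
    exact hδ ζ hζ x w ((mem_closedBall.1 hx).trans_lt l3) hw
  have hthird : ∀ x ∈ closedBall S.xT ρ₂, ∀ x' ∈ closedBall S.xT ρ₂,
        (∀ ζ ∈ Z, rt (S.co x) N ζ = rt (S.co x') N ζ) →
        ∀ p : ℂ × ℂ, cr ((S.F x)^[N] p) ((S.F x')^[N] p) = 0 := by
    intro x hx x' hx' h p
    refine cr_zero hPOLY (by omega) (S.co x) (S.co x') N Z (by omega) (fun ζ hζ => ?_) p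
    have h1 : ((hF (S.co x))^[N] (ζ, 1)).2 ≠ 0 := (hprop x hx ζ hζ ζ (mem_ball_self hδ0)).1
    have h2 : ((hF (S.co x'))^[N] (ζ, 1)).2 ≠ 0 := (hprop x' hx' ζ hζ ζ (mem_ball_self hδ0)).1
    have h3 := h ζ hζ
    unfold rt at h3
    rw [div_eq_div_iff h1 h2] at h3
    unfold cr
    rw [h3]
    ring
  -- the lower bound on the sphere
  set g : (Fin n → ℂ) → ℝ := fun x =>
    ∑ ζ ∈ Z, ‖rt (S.co x) N ζ - rt (S.co S.xT) N ζ‖ ^ 2 + ∑ i, ‖e i x - e i S.xT‖ ^ 2 with hg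
  have hsub : sphere S.xT ρ₂ ⊆ ball S.xT S.ρ := fun x hx => by
    rw [mem_sphere] at hx
    rw [mem_ball, hx]
    exact l2
  have hgc : ContinuousOn g (sphere S.xT ρ₂) := by
    refine ContinuousOn.add ?_ ?_
    · refine continuousOn_finset_sum _ fun ζ hζ => ?_
      refine ContinuousOn.pow (ContinuousOn.norm (ContinuousOn.sub ?_ continuousOn_const)) 2
      intro x hx
      have h1 : ((hF (S.co x))^[N] (ζ, 1)).2 ≠ 0 :=
        (hprop x (sphere_subset_closedBall hx) ζ hζ ζ (mem_ball_self hδ0)).1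
      have h2 := hrtc x (hsub hx) ζ h1
      exact (ContinuousAt.comp (f := fun x : Fin n → ℂ => (x, ζ)) h2
        (by fun_prop)).continuousWithinAt
    · refine continuousOn_finset_sum _ fun i _ => ?_
      exact ((((hed i).continuousOn.mono hsub).sub continuousOn_const).norm).pow 2
  have hgpos : ∀ x ∈ sphere S.xT ρ₂, 0 < g x := by
    intro x hx
    have hn1 : 0 ≤ ∑ ζ ∈ Z, ‖rt (S.co x) N ζ - rt (S.co S.xT) N ζ‖ ^ 2 :=
      Finset.sum_nonneg fun ζ _ => by positivity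
    have hn2 : 0 ≤ ∑ i, ‖e i x - e i S.xT‖ ^ 2 := Finset.sum_nonneg fun i _ => by positivity
    rcases (add_nonneg hn1 hn2).eq_or_lt with h | h
    · exfalso
      have h1 : ∑ ζ ∈ Z, ‖rt (S.co x) N ζ - rt (S.co S.xT) N ζ‖ ^ 2 = 0 := by linarith
      have h2 : ∑ i, ‖e i x - e i S.xT‖ ^ 2 = 0 := by linarith
      rw [Finset.sum_eq_zero_iff_of_nonneg (fun ζ _ => by positivity)] at h1 h2
      have h3 : ∀ ζ ∈ Z, rt (S.co x) N ζ = rt (S.co S.xT) N ζ := fun ζ hζ => by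
        have := pow_eq_zero_iff (two_ne_zero) |>.1 (h1 ζ hζ)
        exact sub_eq_zero.1 (norm_eq_zero.1 this)
      have h4 : ∀ i, e i x = e i S.xT := fun i => by
        have := pow_eq_zero_iff (two_ne_zero) |>.1 (h2 i (Finset.mem_univ i))
        exact sub_eq_zero.1 (norm_eq_zero.1 this)
      have h5 := hthird x (sphere_subset_closedBall hx) S.xT (mem_closedBall_self hρ₂0.le) h3
      have h6 : ‖x - S.xT‖ = ρ₂ := mem_sphere_iff_norm.1 hx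
      have h7 := hsep x (hsub hx) (by rw [h6]; exact l4) h4 h5
      rw [h7, sub_self, norm_zero] at h6
      exact hρ₂0.ne h6
    · exact h
  have hh : ∃ h₀ : ℝ, 0 < h₀ ∧ ∀ x ∈ sphere S.xT ρ₂, h₀ ≤ g x := by
    rcases (sphere S.xT ρ₂).eq_empty_or_nonempty with h | h
    · exact ⟨1, one_pos, fun x hx => by rw [h] at hx; exact absurd hx (notMem_empty _)⟩
    · obtain ⟨x₀, hx₀, hmn⟩ := (isCompact_sphere S.xT ρ₂).exists_isMinOn h hgc
      exact ⟨g x₀, hgpos x₀ hx₀, fun x hx => hmn hx⟩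
  obtain ⟨h₀, hh₀, hh₁⟩ := hh
  refine ⟨Z, δ, M, ρ₂, h₀, hδ0, hM0, hρ₂0, l1, l2, hh₀, hZn, hprop, hthird, fun x hx => ?_⟩
  exact hh₁ x (mem_sphere_iff_norm.2 hx)

end Pool.Agent.W757.RC
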