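import Mathlib
import Pool.Agent.H790R3.RB.Main
import Pool.Agent.W757.RC.TADO
import Pool.Agent.W757.RC.TALLC
import Pool.Agent.W757.RC.TAU
import Pool.Agent.W757.RC.TCNJ
import Pool.Agent.W757.RC.TCOV
import Pool.Agent.W757.RC.TCPT
import Pool.Agent.W757.RC.TDI
import Pool.Agent.W757.RC.TEMIN
import Pool.Agent.W757.RC.TER
import Pool.Agent.W757.RC.TEXC
import Pool.Agent.W757.RC.TFKB
import Pool.Agent.W757.RC.TIN
import Pool.Agent.W757.RC.TJT
import Pool.Agent.W757.RC.TKOE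
import Pool.Agent.W757.RC.TLAM
import Pool.Agent.W757.RC.TLF
import Pool.Agent.W757.RC.TLIN
import Pool.Agent.W757.RC.TLSC
import Pool.Agent.W757.RC.TMS
import Pool.Agent.W757.RC.TNC
import Pool.Agent.W757.RC.TNU
import Pool.Agent.W757.RC.TONE
import Pool.Agent.W757.RC.TOPN
import Pool.Agent.W757.RC.TORB
import Pool.Agent.W757.RC.TST
import Pool.Agent.W757.RC.TTNI
import Pool.Agent.W757.RC.TTOP
import Pool.Agent.W757.RC.TUSC
import Pool.Agent.W757.RC.TZZ

/-! The statements of `RC.St` (adapted from the project RB) which are proved. -/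

set_option autoImplicit false

open Topology Filter Metric Set MeasureTheory
open Pool.Agent.H790R3.RB

namespace Pool.Agent.W757.RC

theorem p_ER : StER := ER WR
theorem p_LAM : StLAM := LAM WR
theorem p_ORB : StORB := ORB p_LAM
theorem p_ADO : StADO := ADO p_LAM
theorem p_AU : StAU := AU p_ORB POLY
theorem p_CNJ : StCNJ := CNJ p_ORB p_LAM p_AU
theorem p_COV : StCOV := COV p_LAM
theorem p_CPT : StCPT := CPT p_LAM WR p_ER
theorem p_MS : StMS := MS MOT (CHAIN WR) PROP p_ORB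
theorem p_TNI : StTNI := TNI p_ORB p_LAM p_AU
theorem p_DI : StDI := DI p_MS p_AU p_TNI p_CNJ EXT (GAINB GAINA) STEP p_LAM
theorem p_EXC : StEXC := EXC WR p_LAM p_ER p_ORB
theorem p_FAT : StFAT := FAT POLY (CHAIN WR) PROP
theorem p_FKB : StFKB := FKB p_FAT p_EXC p_LAM p_ORB
theorem p_KOE : StKOE := KOE p_LAM KOEN
theorem p_LIN : StLIN := LIN p_LAM INV
theorem p_OPN : StOPN := OPN p_LAM LF
theorem p_NU : StNU := NU LA
theorem p_ALLC : StALLC := ALLC p_LAM p_ER WR
theorem p_ZZ : StZZ := ZZ POLY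
theorem p_JT : StJT := JT p_LAM p_ADO
theorem p_ST : StST := ST p_COV p_LAM
theorem p_NC : StNC := NC p_ER p_LAM
theorem p_TOP : StTOP := TOP SP (INJL SP WR) p_LAM
theorem p_ONE : StONE := ONE p_FAT p_LAM p_KOE p_LIN
theorem p_USC : StUSC := USC
theorem p_LF : StLF := LF
theorem p_IN : StIN := IN
theorem p_LSC : StLSC := LSC
theorem p_EMIN : StEMIN := EMIN

end Pool.Agent.W757.RC
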